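import Pool.Agent.Lib.MP_51ebd4_co.Use

/-!
# Connected layer multicomplexes of sets without large cliques
-/

set_option autoImplicit false

namespace Pool.Agent.Lib.MP_51ebd4_co

variable {n d k : ℕ} {L : ℕ → Finset (Multiset (Fin n))}

/-- Among any `q` elements there are two which lie in no common facet. -/
def NoClique (k : ℕ) (L : ℕ → Finset (Multiset (Fin n))) (q : ℕ) : Prop :=
  ∀ T : Finset (Fin n), T.card = q → ∃ a ∈ T, ∃ b ∈ T, a ≠ b ∧ ∀ F, Facet k L F → ¬ (a ∈ F ∧ b ∈ F)

theorem Adj.facet {S : Multiset (Fin n)} {a b : Fin n} (h : Adj k L S a b) :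
    ∃ F, Facet k L F ∧ a ::ₘ b ::ₘ S ≤ F := by
  obtain ⟨l, hl, F, hF, hle⟩ := h
  exact ⟨F, ⟨l, hl, hF⟩, hle⟩

theorem Adj.symm {S : Multiset (Fin n)} {a b : Fin n} (h : Adj k L S a b) : Adj k L S b a := by
  obtain ⟨l, hl, F, hF, hle⟩ := h
  rw [Multiset.cons_swap] at hle
  exact ⟨l, hl, F, hF, hle⟩

theorem Adj.nodup (hset : ∀ F, Facet k L F → F.Nodup) {S : Multiset (Fin n)} {a b : Fin n} (h : Adj k L S a b) :
    (a ::ₘ b ::ₘ S).Nodup := by
  obtain ⟨F, hF, hle⟩ := h.facet
  exact Multiset.nodup_of_le hle (hset F hF)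

theorem adj_irrefl (hset : ∀ F, Facet k L F → F.Nodup) {S : Multiset (Fin n)} (a : Fin n) : ¬ Adj k L S a a := by
  intro h
  have h1 := h.nodup hset
  rw [Multiset.nodup_cons] at h1
  exact h1.1 (Multiset.mem_cons_self a S)

/-- The neighbours of an element contain no clique of `J + 2` elements. -/
theorem cf_nbr (hset : ∀ F, Facet k L F → F.Nodup) {S : Multiset (Fin n)} {J q : ℕ} (hq : J + 3 + Multiset.card S = q)
    (hcl : NoClique k L q) (y : Fin n) (V : Finset (Fin n)) (hV : ∀ b ∈ V, Adj k L S b y) : CF (Adj k L S) J V := by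
  classical
  by_contra hcf
  obtain ⟨T, hTV, hTc, hT⟩ := cf_of_clique (fun a b h => h.symm) (adj_irrefl hset) J V hcf
  have hTne : T.Nonempty := Finset.card_pos.1 (by omega)
  obtain ⟨b₀, hb₀⟩ := hTne
  obtain ⟨F₀, hF₀, hle₀⟩ := (hV b₀ (hTV hb₀)).facet
  have hnd₀ := (hV b₀ (hTV hb₀)).nodup hset
  rw [Multiset.nodup_cons, Multiset.nodup_cons] at hnd₀
  have hyT : y ∉ T := fun h => adj_irrefl hset y (hV y (hTV h))
  have hyS : y ∉ S := hnd₀.2.1
  have hTS : ∀ b ∈ T, b ∉ S := by
    intro b hb hbS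
    have h1 := (hV b (hTV hb)).nodup hset
    rw [Multiset.nodup_cons] at h1
    exact h1.1 (Multiset.mem_cons_of_mem hbS)
  have hcard : (insert y (T ∪ S.toFinset)).card = q := by
    rw [Finset.card_insert_of_notMem, Finset.card_union_of_disjoint, Multiset.toFinset_card_of_nodup hnd₀.2.2, hTc, ← hq]
    · omega
    · rw [Finset.disjoint_left]
      intro b hb hbS
      exact hTS b hb (Multiset.mem_toFinset.1 hbS)
    · intro h
      rcases Finset.mem_union.1 h with h | h
      · exact hyT h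
      · exact hyS (Multiset.mem_toFinset.1 h)
  obtain ⟨a, ha, b, hb, hab, hF⟩ := hcl _ hcard
  have hmemy : ∀ c ∈ T, ∃ F, Facet k L F ∧ c ∈ F ∧ y ∈ F ∧ S ≤ F := by
    intro c hc
    obtain ⟨F, hF, hle⟩ := (hV c (hTV hc)).facet
    refine ⟨F, hF, ?_, ?_, ?_⟩
    · exact Multiset.mem_of_le hle (Multiset.mem_cons_self c _)
    · exact Multiset.mem_of_le hle (Multiset.mem_cons_of_mem (Multiset.mem_cons_self y _))
    · exact (Multiset.le_cons_self S y).trans ((Multiset.le_cons_self _ c).trans hle)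
  obtain ⟨F₁, hF₁, hb₁, hy₁, hS₁⟩ := hmemy b₀ hb₀
  have key : ∀ a ∈ insert y (T ∪ S.toFinset), ∀ b ∈ insert y (T ∪ S.toFinset), a ≠ b →
      ∃ F, Facet k L F ∧ a ∈ F ∧ b ∈ F := by
    intro a ha b hb hab
    rcases Finset.mem_insert.1 ha with ha | ha
    · rcases Finset.mem_insert.1 hb with hb | hb
      · exact absurd (ha.trans hb.symm) hab
      · rcases Finset.mem_union.1 hb with hb | hb
        · obtain ⟨F, hF, h1, h2, -⟩ := hmemy b hb
          exact ⟨F, hF, by rw [ha]; exact h2, h1⟩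
        · exact ⟨F₁, hF₁, by rw [ha]; exact hy₁, Multiset.mem_of_le hS₁ (Multiset.mem_toFinset.1 hb)⟩
    · rcases Finset.mem_insert.1 hb with hb | hb
      · rcases Finset.mem_union.1 ha with ha | ha
        · obtain ⟨F, hF, h1, h2, -⟩ := hmemy a ha
          exact ⟨F, hF, h1, by rw [hb]; exact h2⟩
        · exact ⟨F₁, hF₁, Multiset.mem_of_le hS₁ (Multiset.mem_toFinset.1 ha), by rw [hb]; exact hy₁⟩
      · rcases Finset.mem_union.1 ha with ha | ha
        · rcases Finset.mem_union.1 hb with hb | hb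
          · obtain ⟨F, hF, hle⟩ := (hT a ha b hb hab).facet
            exact ⟨F, hF, Multiset.mem_of_le hle (Multiset.mem_cons_self a _),
              Multiset.mem_of_le hle (Multiset.mem_cons_of_mem (Multiset.mem_cons_self b _))⟩
          · obtain ⟨F, hF, h1, -, h2⟩ := hmemy a ha
            exact ⟨F, hF, h1, Multiset.mem_of_le h2 (Multiset.mem_toFinset.1 hb)⟩
        · rcases Finset.mem_union.1 hb with hb | hb
          · obtain ⟨F, hF, h1, -, h2⟩ := hmemy b hb
            exact ⟨F, hF, Multiset.mem_of_le h2 (Multiset.mem_toFinset.1 ha), h1⟩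
          · exact ⟨F₁, hF₁, Multiset.mem_of_le hS₁ (Multiset.mem_toFinset.1 ha),
              Multiset.mem_of_le hS₁ (Multiset.mem_toFinset.1 hb)⟩
  obtain ⟨F, hF', h1, h2⟩ := key a ha b hb hab
  exact hF F hF' ⟨h1, h2⟩

/-- One step: from the cost `c |P|` of the links of the elements to the cost `c ρ (N - 1)`. -/
theorem step_bound (h : IsCLM n d k L) (hset : ∀ F, Facet k L F → F.Nodup) (S : Multiset (Fin n))
    (hS : Multiset.card S < d) {J q : ℕ} (hq : J + 3 + Multiset.card S = q) (hcl : NoClique k L q) (c ρ : ℝ) (hc : 0 ≤ c)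
    (hρ : 1 ≤ ρ) (hρJ : (2 - ρ) * ∑ i ∈ Finset.range (J + 1), ρ ^ i ≤ 1)
    (cost : ∀ x s e, s ≤ e → e ≤ k → (∀ l, s ≤ l → l ≤ e → Act L (x ::ₘ S) l) →
      ((e : ℝ) - s + 1) ≤ c * (Seen L (x ::ₘ S) s e).card)
    (s t : ℕ) (hst : s ≤ t) (ht : t ≤ k) (hact : ∀ l, s ≤ l → l ≤ t → Act L S l) :
    ((t : ℝ) - s + 1) ≤ c * ρ * ((Seen L S s t).card - 1) := by
  have hσ : ∀ j : ℕ, 0 < ∑ i ∈ Finset.range (j + 1), ρ ^ i := fun j =>
    Finset.sum_pos (fun i _ => by positivity) ⟨0, by simp⟩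
  have hσ1 : ∀ j : ℕ, ∑ i ∈ Finset.range (j + 1 + 1), ρ ^ i = 1 + ρ * ∑ i ∈ Finset.range (j + 1), ρ ^ i := by
    intro j
    have h0 : ∑ i ∈ Finset.range (j + 1), ρ ^ (i + 1) = ρ * ∑ i ∈ Finset.range (j + 1), ρ ^ i := by
      rw [Finset.mul_sum]
      refine Finset.sum_congr rfl fun i _ => ?_
      ring
    rw [Finset.sum_range_succ', h0, pow_zero, add_comm]
  obtain ⟨y, hy⟩ := h.extend (S := S) (l := s) (by omega) hS (hact s le_rfl hst)
  have h1 := use_bound h S hS c ρ (fun j => 1 - 1 / ∑ i ∈ Finset.range (j + 1), ρ ^ i) J hc hρ (by simp) ?_ ?_ ?_ cost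
    (adj_irrefl hset) (fun x V hV => cf_nbr hset hq hcl x V hV) (t - s) s t (by omega) hst ht hact 0 (Nat.zero_le _) {y}
    (Finset.singleton_nonempty y) (fun a ha => by rw [Finset.mem_singleton.1 ha]; exact hy)
    (fun a ha b hb' => by
      rw [Finset.mem_singleton.1 ha, Finset.mem_singleton.1 hb']
      exact adj_irrefl hset y)
  · rw [Finset.card_singleton] at h1
    simp only [zero_add, Finset.range_one, Finset.sum_singleton, pow_zero, div_one, sub_self, zero_mul, add_zero,
      Nat.cast_one] at h1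
    linarith
  · intro j _
    have h2 := hσ j
    have h3 : (0 : ℝ) < 1 / ∑ i ∈ Finset.range (j + 1), ρ ^ i := by positivity
    linarith
  · intro j _
    rw [hσ1 j]
    have h2 := hσ j
    set σ := ∑ i ∈ Finset.range (j + 1), ρ ^ i
    have h3 : (0 : ℝ) < 1 + ρ * σ := by positivity
    have h4 : (1 - 1 / (1 + ρ * σ)) * (1 + ρ - (1 - 1 / σ)) = ρ := by
      field_simp
      ring
    rw [h4]
  · have h2 := hσ J
    set σ := ∑ i ∈ Finset.range (J + 1), ρ ^ i
    have h3 : 2 - ρ ≤ 1 / σ := by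
      rw [le_div_iff₀ h2]
      exact hρJ
    linarith

/-- The bound for sets without a clique of `d + m + 1` elements. -/
theorem clique_rank (h : IsCLM n d k L) (hset : ∀ F, Facet k L F → F.Nodup) {m : ℕ} (hcl : NoClique k L (d + m + 1))
    (ρ : ℕ → ℝ) (hρ : ∀ J, 1 ≤ ρ J ∧ (2 - ρ J) * ∑ i ∈ Finset.range (J + 1), ρ J ^ i ≤ 1) :
    ∀ (r : ℕ) (S : Multiset (Fin n)), Multiset.card S + (r + 2) = d → ∀ s t, s ≤ t → t ≤ k →
      (∀ l, s ≤ l → l ≤ t → Act L S l) →
      ((t : ℝ) - s + 1) ≤ (∏ i ∈ Finset.range (r + 1), ρ (m + i)) * ((Seen L S s t).card - 1) := by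
  intro r
  induction r with
  | zero =>
    intro S hS s t hst ht hact
    obtain ⟨h1, h2⟩ := hρ m
    have h3 := step_bound h hset S (by omega) (J := m) (q := d + m + 1) (by omega) hcl 1 (ρ m) zero_le_one h1 h2
      (fun x s e hse he hact' => by
        have h4 := rank_one h (x ::ₘ S) (by rw [Multiset.card_cons]; omega) s e hse he hact'
        have h5 : ((e : ℝ) + 1) ≤ s + (Seen L (x ::ₘ S) s e).card := by exact_mod_cast h4
        linarith) s t hst ht hact
    rw [one_mul] at h3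
    simpa using h3
  | succ r ih =>
    intro S hS s t hst ht hact
    obtain ⟨h1, h2⟩ := hρ (m + (r + 1))
    have hC : (0 : ℝ) ≤ ∏ i ∈ Finset.range (r + 1), ρ (m + i) :=
      Finset.prod_nonneg fun i _ => zero_le_one.trans (hρ _).1
    have h3 := step_bound h hset S (by omega) (J := m + (r + 1)) (q := d + m + 1) (by omega) hcl
      (∏ i ∈ Finset.range (r + 1), ρ (m + i)) (ρ (m + (r + 1))) hC h1 h2
      (fun x s e hse he hact' => by
        have h4 := ih (x ::ₘ S) (by rw [Multiset.card_cons]; omega) s e hse he hact'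
        refine h4.trans (mul_le_mul_of_nonneg_left ?_ hC)
        linarith) s t hst ht hact
    rw [Finset.prod_range_succ]
    exact h3

theorem clique_total (h : IsCLM n d k L) (hset : ∀ F, Facet k L F → F.Nodup) {m : ℕ} (hcl : NoClique k L (d + m + 1))
    (ρ : ℕ → ℝ) (hρ : ∀ J, 1 ≤ ρ J ∧ (2 - ρ J) * ∑ i ∈ Finset.range (J + 1), ρ J ^ i ≤ 1) (hd : 2 ≤ d) :
    ((k : ℝ) + 1) ≤ (∏ i ∈ Finset.range (d - 1), ρ (m + i)) * ((n : ℝ) - 1) := by
  obtain ⟨r, rfl⟩ := Nat.exists_eq_add_of_le' hd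
  have h1 := clique_rank h hset hcl ρ hρ r 0 (by simp) 0 k (Nat.zero_le _) le_rfl fun l _ hl => by
    obtain ⟨F, hF⟩ := h.nonempty l hl
    exact ⟨F, hF, Multiset.zero_le F⟩
  have h2 : ((Seen L 0 0 k).card : ℝ) ≤ n := by
    have h3 : (Seen L 0 0 k).card ≤ n := by
      calc (Seen L 0 0 k).card ≤ (Finset.univ : Finset (Fin n)).card := Finset.card_le_card (Finset.subset_univ _)
        _ = n := by simp
    exact_mod_cast h3
  have hC : (0 : ℝ) ≤ ∏ i ∈ Finset.range (r + 1), ρ (m + i) :=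
    Finset.prod_nonneg fun i _ => zero_le_one.trans (hρ _).1
  have h4 : r + 2 - 1 = r + 1 := by omega
  rw [h4]
  have h5 : (∏ i ∈ Finset.range (r + 1), ρ (m + i)) * ((Seen L 0 0 k).card - 1 : ℝ) ≤
      (∏ i ∈ Finset.range (r + 1), ρ (m + i)) * ((n : ℝ) - 1) := mul_le_mul_of_nonneg_left (by linarith) hC
  push_cast at h1
  linarith

/-- No five elements pairwise together in facets: Hähnle's bound. -/
theorem clique_five (h : IsCLM n d k L) (hset : ∀ F, Facet k L F → F.Nodup) (hcl : NoClique k L 5) :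
    k ≤ d * (n - 1) := by
  classical
  let ρ : ℕ → ℝ := fun J => if J = 0 then 1 else if J = 1 then 1.62 else if J = 2 then 1.84 else 2
  have hρ : ∀ J, 1 ≤ ρ J ∧ (2 - ρ J) * ∑ i ∈ Finset.range (J + 1), ρ J ^ i ≤ 1 := by
    intro J
    rcases Nat.lt_or_ge J 3 with h3 | h3
    · interval_cases J
      · simp only [ρ]
        norm_num [Finset.sum_range_succ]
      · simp only [ρ]
        norm_num [Finset.sum_range_succ]
      · simp only [ρ]
        norm_num [Finset.sum_range_succ]
    · have h4 : ρ J = 2 := by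
        simp only [ρ]
        rw [if_neg (by omega), if_neg (by omega), if_neg (by omega)]
      rw [h4]
      norm_num
  have hfin : ∀ {C : ℝ}, C ≤ 3 → 0 ≤ C → ((k : ℝ) + 1) ≤ C * ((n : ℝ) - 1) → 3 ≤ d → k ≤ d * (n - 1) := by
    intro C hC hC0 h1 hd
    have hn : 1 ≤ n := by
      by_contra h2
      have h3 : n = 0 := by omega
      rw [h3] at h1
      push_cast at h1
      have h4 : (0 : ℝ) ≤ k := Nat.cast_nonneg k
      nlinarith
    obtain ⟨n', rfl⟩ := Nat.exists_eq_add_of_le' hn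
    rw [Nat.add_sub_cancel]
    push_cast at h1
    have h5 : ((k : ℝ) + 1) ≤ 3 * n' := by
      have h6 : (0 : ℝ) ≤ n' := Nat.cast_nonneg n'
      nlinarith
    have h6 : k + 1 ≤ 3 * n' := by exact_mod_cast h5
    have h7 := Nat.mul_le_mul_right n' hd
    omega
  rcases Nat.lt_or_ge d 3 with hd | hd
  · refine gap_two h ?_
    rintro X Y ⟨i, hi, hX⟩ _ hD
    have h1 := dist_le_card X Y
    rw [h.card i hi X hX] at h1
    omega
  rcases Nat.lt_or_ge 4 d with hd' | hd'
  · -- a facet contains five elements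
    exfalso
    obtain ⟨F, hF⟩ := h.nonempty 0 (Nat.zero_le _)
    have hFf : Facet k L F := ⟨0, Nat.zero_le _, hF⟩
    have h1 : F.toFinset.card = d := by
      rw [Multiset.toFinset_card_of_nodup (hset F hFf), h.card 0 (Nat.zero_le _) F hF]
    obtain ⟨T, hTF, hT⟩ := Finset.exists_subset_card_eq (show 5 ≤ F.toFinset.card by omega)
    obtain ⟨a, ha, b, hb, -, hab⟩ := hcl T hT
    exact hab F hFf ⟨Multiset.mem_toFinset.1 (hTF ha), Multiset.mem_toFinset.1 (hTF hb)⟩
  · have hcases : d = 3 ∨ d = 4 := by omega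
    rcases hcases with hd3 | hd4
    · subst hd3
      have h1 := clique_total h hset (m := 1) hcl ρ hρ (by norm_num)
      refine hfin (C := 1.62 * 1.84) (by norm_num) (by norm_num) ?_ hd
      have h2 : ∏ i ∈ Finset.range (3 - 1), ρ (1 + i) = 1.62 * 1.84 := by
        simp only [ρ]
        norm_num [Finset.prod_range_succ]
      rwa [h2] at h1
    · subst hd4
      have h1 := clique_total h hset (m := 0) hcl ρ hρ (by norm_num)
      refine hfin (C := 1.62 * 1.84) (by norm_num) (by norm_num) ?_ hd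
      have h2 : ∏ i ∈ Finset.range (4 - 1), ρ (0 + i) = 1.62 * 1.84 := by
        simp only [ρ]
        norm_num [Finset.prod_range_succ]
      rwa [h2] at h1

/-- No `d + 2` elements pairwise together in facets and gaps at most three: Hähnle's bound. -/
theorem clique_gap (h : IsCLM n d k L) (hset : ∀ F, Facet k L F → F.Nodup) (hcl : NoClique k L (d + 2))
    (hgap : Gap k L 3) : k ≤ d * (n - 1) := by
  let ρ : ℕ → ℝ := fun J => if J = 0 then 1 else if J = 1 then 1.62 else if J = 2 then 1.84 else 2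
  have hρ : ∀ J, 1 ≤ ρ J ∧ (2 - ρ J) * ∑ i ∈ Finset.range (J + 1), ρ J ^ i ≤ 1 := by
    intro J
    rcases Nat.lt_or_ge J 3 with h3 | h3
    · interval_cases J
      · simp only [ρ]
        norm_num [Finset.sum_range_succ]
      · simp only [ρ]
        norm_num [Finset.sum_range_succ]
      · simp only [ρ]
        norm_num [Finset.sum_range_succ]
    · have h4 : ρ J = 2 := by
        simp only [ρ]
        rw [if_neg (by omega), if_neg (by omega), if_neg (by omega)]
      rw [h4]
      norm_num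
  obtain ⟨X, hX⟩ := h.nonempty 0 (Nat.zero_le _)
  obtain ⟨Y, hY⟩ := h.nonempty k le_rfl
  have h1 := gap_general h (C := n - 1) hgap ?_ (dist X Y) X Y 0 k le_rfl (Nat.zero_le _) le_rfl hX hY
  · have h2 : dist X Y ≤ d := (dist_le_card X Y).trans (h.card 0 (Nat.zero_le _) X hX).le
    have h3 := Nat.mul_le_mul_left (n - 1) h2
    rw [mul_comm d]
    omega
  · intro X Y i j hij hj hX hY hD hD3
    rcases Nat.lt_or_ge 1 (dist X Y) with h2 | h2
    · have h3 : Multiset.card (X ∩ Y) + dist X Y = d := by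
        rw [← h.card i (hij.trans hj) X hX]
        unfold dist
        rw [← Multiset.card_add]
        congr 1
        ext a
        simp only [Multiset.count_add, Multiset.count_inter, Multiset.count_sub]
        omega
      obtain ⟨r, hr⟩ := Nat.exists_eq_add_of_le' h2
      have h4 := clique_rank h hset (m := 1) hcl ρ hρ r (X ∩ Y) (by omega) i j hij hj fun l h1 h2 =>
        h.act h1 h2 hj ⟨X, hX, Multiset.inter_le_left⟩ ⟨Y, hY, Multiset.inter_le_right⟩
      have h5 : (Seen L (X ∩ Y) i j).card ≤ n := by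
        calc (Seen L (X ∩ Y) i j).card ≤ (Finset.univ : Finset (Fin n)).card :=
              Finset.card_le_card (Finset.subset_univ _)
          _ = n := by simp
      have hr2 : r < 2 := by omega
      have h6 : ∏ i ∈ Finset.range (r + 1), ρ (1 + i) ≤ dist X Y ∧ 0 ≤ ∏ i ∈ Finset.range (r + 1), ρ (1 + i) := by
        rw [hr]
        interval_cases r
        · simp only [ρ]
          norm_num [Finset.prod_range_succ]
        · simp only [ρ]
          norm_num [Finset.prod_range_succ]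
      set C := ∏ i ∈ Finset.range (r + 1), ρ (1 + i)
      have hN : 1 ≤ (Seen L (X ∩ Y) i j).card := by
        by_contra h7
        have h8 : (Seen L (X ∩ Y) i j).card = 0 := by omega
        rw [h8] at h4
        push_cast at h4
        have h9 : (i : ℝ) ≤ j := by exact_mod_cast hij
        nlinarith [h6.2]
      have hn : 1 ≤ n := hN.trans h5
      obtain ⟨n', rfl⟩ := Nat.exists_eq_add_of_le' hn
      rw [Nat.add_sub_cancel]
      have h7 : ((Seen L (X ∩ Y) i j).card : ℝ) ≤ (n' : ℝ) + 1 := by exact_mod_cast h5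
      have h8 : C * (((Seen L (X ∩ Y) i j).card : ℝ) - 1) ≤ C * n' := mul_le_mul_of_nonneg_left (by linarith) h6.2
      have h9 : C * (n' : ℝ) ≤ dist X Y * n' := mul_le_mul_of_nonneg_right h6.1 (Nat.cast_nonneg n')
      have h10 : (j : ℝ) + 1 ≤ i + dist X Y * n' := by linarith
      have h11 : j + 1 ≤ i + dist X Y * n' := by exact_mod_cast h10
      rw [mul_comm n']
      omega
    · have h3 : dist X Y = 1 := by omega
      have h4 := layer_dist h hij hj hX hY hD
      rw [h3] at h4 ⊢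
      simpa using h4

end Pool.Agent.Lib.MP_51ebd4_co
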