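import Mathlib

/-!
# Connected layer multicomplexes

Definition, the links of multisets on an interval of layers, and the bound `2^(r-1) (N - 1)` for the
length of an interval of layers in the link of a multiset of size `d - r` with `N` active elements.
-/

set_option autoImplicit false

namespace Pool.Agent.Lib.MP_51ebd4_co

/-- `L 0, …, L k` are the layers of a connected layer multicomplex of rank `d` on `Fin n`. -/
structure IsCLM (n d k : ℕ) (L : ℕ → Finset (Multiset (Fin n))) : Prop where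
  nonempty : ∀ i, i ≤ k → (L i).Nonempty
  card : ∀ i, i ≤ k → ∀ F ∈ L i, Multiset.card F = d
  disj : ∀ i j, i ≤ k → j ≤ k → i ≠ j → Disjoint (L i) (L j)
  conn : ∀ (S : Multiset (Fin n)) (i j l : ℕ), i ≤ l → l ≤ j → j ≤ k →
    (∃ F ∈ L i, S ≤ F) → (∃ F ∈ L j, S ≤ F) → ∃ F ∈ L l, S ≤ F

/-- `F` is a facet. -/
def Facet {n : ℕ} (k : ℕ) (L : ℕ → Finset (Multiset (Fin n))) (F : Multiset (Fin n)) : Prop :=
  ∃ i, i ≤ k ∧ F ∈ L i

/-- The distance `|X ∖ Y|` of two multisets (of the same size). -/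
def dist {n : ℕ} (X Y : Multiset (Fin n)) : ℕ := Multiset.card (X - Y)

variable {n d k : ℕ} {L : ℕ → Finset (Multiset (Fin n))}

/-- Some facet in layer `l` contains `S`. -/
def Act (L : ℕ → Finset (Multiset (Fin n))) (S : Multiset (Fin n)) (l : ℕ) : Prop := ∃ F ∈ L l, S ≤ F

open Classical in
/-- The elements `a` such that some facet in the layers from `s` to `t` contains `a ::ₘ S`. -/
noncomputable def Seen (L : ℕ → Finset (Multiset (Fin n))) (S : Multiset (Fin n)) (s t : ℕ) : Finset (Fin n) :=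
  Finset.univ.filter fun a => ∃ l, s ≤ l ∧ l ≤ t ∧ Act L (a ::ₘ S) l

theorem mem_seen {S : Multiset (Fin n)} {s t : ℕ} {a : Fin n} :
    a ∈ Seen L S s t ↔ ∃ l, s ≤ l ∧ l ≤ t ∧ Act L (a ::ₘ S) l := by
  simp [Seen]

theorem Act.mono {S T : Multiset (Fin n)} {l : ℕ} (h : Act L T l) (hST : S ≤ T) : Act L S l := by
  obtain ⟨F, hF, hT⟩ := h
  exact ⟨F, hF, hST.trans hT⟩

theorem IsCLM.act (h : IsCLM n d k L) {S : Multiset (Fin n)} {i j l : ℕ} (hil : i ≤ l) (hlj : l ≤ j) (hj : j ≤ k)
    (h1 : Act L S i) (h2 : Act L S j) : Act L S l := h.conn S i j l hil hlj hj h1 h2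

/-- An active multiset which is not a facet can be extended. -/
theorem IsCLM.extend (h : IsCLM n d k L) {S : Multiset (Fin n)} {l : ℕ} (hl : l ≤ k) (hS : Multiset.card S < d)
    (h1 : Act L S l) : ∃ a, Act L (a ::ₘ S) l := by
  obtain ⟨F, hF, hSF⟩ := h1
  have hc := h.card l hl F hF
  obtain ⟨T, rfl⟩ := Multiset.le_iff_exists_add.1 hSF
  have hT : T ≠ 0 := by
    rintro rfl
    simp at hc
    omega
  obtain ⟨a, ha⟩ := Multiset.exists_mem_of_ne_zero hT
  obtain ⟨T', rfl⟩ := Multiset.exists_cons_of_mem ha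
  refine ⟨a, S + a ::ₘ T', hF, ?_⟩
  rw [Multiset.add_cons, ← Multiset.cons_add]
  exact Multiset.le_add_right _ _

/-- Rank one. -/
theorem rank_one (h : IsCLM n d k L) (S : Multiset (Fin n)) (hS : Multiset.card S + 1 = d) (s t : ℕ) (hst : s ≤ t)
    (ht : t ≤ k) (hact : ∀ l, s ≤ l → l ≤ t → Act L S l) : t + 1 ≤ s + (Seen L S s t).card := by
  classical
  have h1 : ∀ l, s ≤ l → l ≤ t → ∃ a, a ::ₘ S ∈ L l := by
    intro l hl1 hl2
    obtain ⟨a, F, hF, haF⟩ := h.extend (hl2.trans ht) (by omega) (hact l hl1 hl2)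
    refine ⟨a, ?_⟩
    have h2 : a ::ₘ S = F := Multiset.eq_of_le_of_card_le haF (by
      rw [h.card l (hl2.trans ht) F hF, Multiset.card_cons, hS])
    rw [h2]
    exact hF
  have hne : Nonempty (Fin n) := by
    obtain ⟨a, -⟩ := h1 s le_rfl hst
    exact ⟨a⟩
  choose! f hf using h1
  have h2 : (Finset.Icc s t).card ≤ (Seen L S s t).card := by
    refine Finset.card_le_card_of_injOn f ?_ ?_
    · intro l hl
      rw [Finset.coe_Icc, Set.mem_Icc] at hl
      exact mem_seen.2 ⟨l, hl.1, hl.2, _, hf l hl.1 hl.2, le_rfl⟩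
    · intro l hl m hm hlm
      rw [Finset.coe_Icc, Set.mem_Icc] at hl hm
      by_contra hne
      have h3 := h.disj l m (hl.2.trans ht) (hm.2.trans ht) hne
      refine Finset.disjoint_left.1 h3 (hf l hl.1 hl.2) ?_
      rw [hlm]
      exact hf m hm.1 hm.2
  rw [Nat.card_Icc] at h2
  omega

/-- The step of the induction on the rank, with the number of elements active in the first layer. -/
theorem rank_step (h : IsCLM n d k L) (q r : ℕ) (hq : 1 ≤ q)
    (ih : ∀ (S : Multiset (Fin n)), Multiset.card S + r = d → ∀ s t, s ≤ t → t ≤ k →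
      (∀ l, s ≤ l → l ≤ t → Act L S l) → t + q ≤ s + q * (Seen L S s t).card)
    (S : Multiset (Fin n)) (hS : Multiset.card S + (r + 1) = d) :
    ∀ (m s t : ℕ), t ≤ s + m → s ≤ t → t ≤ k → (∀ l, s ≤ l → l ≤ t → Act L S l) →
      t + q + q * (Seen L S s s).card ≤ s + 2 * q * (Seen L S s t).card := by
  classical
  intro m
  induction m using Nat.strong_induction_on with
  | _ m IH =>
  intro s t hm hst ht hact
  -- the element active in layer `s` which is active for the longest time
  have hne : (Seen L S s s).Nonempty := by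
    obtain ⟨a, ha⟩ := h.extend (hst.trans ht) (by omega) (hact s le_rfl hst)
    exact ⟨a, mem_seen.2 ⟨s, le_rfl, le_rfl, ha⟩⟩
  have hR : ∀ a : Fin n, ∃ e, a ∈ Seen L S s s → s ≤ e ∧ e ≤ t ∧ Act L (a ::ₘ S) e ∧
      ∀ l, e < l → l ≤ t → ¬ Act L (a ::ₘ S) l := by
    intro a
    by_cases ha : a ∈ Seen L S s s
    · obtain ⟨l, hl1, hl2, hl3⟩ := mem_seen.1 ha
      have hls : l = s := le_antisymm hl2 hl1
      subst hls
      let T := (Finset.Icc l t).filter fun e => Act L (a ::ₘ S) e
      have hT : T.Nonempty := ⟨l, by simp [T, hl3, hst]⟩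
      refine ⟨T.max' hT, fun _ => ?_⟩
      have h1 := Finset.mem_filter.1 (T.max'_mem hT)
      rw [Finset.mem_Icc] at h1
      refine ⟨h1.1.1, h1.1.2, h1.2, ?_⟩
      intro l' hl' hl't hact'
      have h2 : l' ∈ T := by
        simp only [T, Finset.mem_filter, Finset.mem_Icc]
        exact ⟨⟨by omega, hl't⟩, hact'⟩
      have h3 := T.le_max' l' h2
      omega
    · exact ⟨0, fun h' => absurd h' ha⟩
  choose R hR using hR
  obtain ⟨x, hx, hmax⟩ := Finset.exists_max_image (Seen L S s s) R hne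
  obtain ⟨he1, he2, he3, he4⟩ := hR x hx
  set e := R x with he
  have hout : ∀ a ∈ Seen L S s s, ∀ l, e < l → l ≤ t → ¬ Act L (a ::ₘ S) l := by
    intro a ha l hl hlt
    exact (hR a ha).2.2.2 l (lt_of_le_of_lt (hmax a ha) hl) hlt
  have hxs : Act L (x ::ₘ S) s := by
    obtain ⟨l, hl1, hl2, hl3⟩ := mem_seen.1 hx
    have hls : l = s := le_antisymm hl2 hl1
    rwa [hls] at hl3
  -- the link of `x`
  have hP := ih (x ::ₘ S) (by rw [Multiset.card_cons]; omega) s e he1 (he2.trans ht)
    (fun l hl1 hl2 => h.act hl1 hl2 (he2.trans ht) hxs he3)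
  have hPN : ∀ b ∈ Seen L (x ::ₘ S) s e, b ∈ Seen L S s e := by
    intro b hb
    obtain ⟨l, hl1, hl2, hl3⟩ := mem_seen.1 hb
    refine mem_seen.2 ⟨l, hl1, hl2, hl3.mono ?_⟩
    exact Multiset.cons_le_cons b (Multiset.le_cons_self S x)
  have hsub : ∀ {s' t' : ℕ}, s ≤ s' → t' ≤ t → Seen L S s' t' ⊆ Seen L S s t := by
    intro s' t' h1 h2 b hb
    obtain ⟨l, hl1, hl2, hl3⟩ := mem_seen.1 hb
    exact mem_seen.2 ⟨l, by omega, by omega, hl3⟩
  have hA : (Seen L S s s).card ≤ (Seen L S s t).card := Finset.card_le_card (hsub le_rfl hst)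
  by_cases het : e = t
  · have h1 : (Seen L (x ::ₘ S) s e).card ≤ (Seen L S s t).card :=
      Finset.card_le_card fun b hb => hsub le_rfl he2 (hPN b hb)
    have h2 := Nat.mul_le_mul_left q h1
    have h3 := Nat.mul_le_mul_left q hA
    have h4 : 2 * q * (Seen L S s t).card = q * (Seen L S s t).card + q * (Seen L S s t).card := by ring
    rw [het] at hP h2
    omega
  · have hlt : e < t := lt_of_le_of_ne he2 het
    have hrec := IH (t - (e + 1)) (by omega) (e + 1) t (by omega) (by omega) ht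
      (fun l hl1 hl2 => hact l (by omega) hl2)
    have hN' : Seen L S (e + 1) t ⊆ Seen L S s t := hsub (by omega) le_rfl
    have hAout : Seen L S s s ⊆ Seen L S s t \ Seen L S (e + 1) t := by
      intro a ha
      refine Finset.mem_sdiff.2 ⟨hsub le_rfl hst ha, fun h' => ?_⟩
      obtain ⟨l, hl1, hl2, hl3⟩ := mem_seen.1 h'
      exact hout a ha l (by omega) hl2 hl3
    have hPsub : Seen L (x ::ₘ S) s e ⊆ (Seen L S s t \ Seen L S (e + 1) t) ∪ Seen L S (e + 1) (e + 1) := by
      intro b hb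
      have hb1 := hPN b hb
      by_cases hb2 : b ∈ Seen L S (e + 1) t
      · refine Finset.mem_union_right _ ?_
        obtain ⟨l, hl1, hl2, hl3⟩ := mem_seen.1 hb1
        obtain ⟨l', hl1', hl2', hl3'⟩ := mem_seen.1 hb2
        exact mem_seen.2 ⟨e + 1, le_rfl, le_rfl, h.act (i := l) (j := l') (by omega) (by omega) (by omega) hl3 hl3'⟩
      · exact Finset.mem_union_left _ (Finset.mem_sdiff.2 ⟨hsub le_rfl he2 hb1, hb2⟩)
    have h1 : (Seen L (x ::ₘ S) s e).card ≤ (Seen L S s t \ Seen L S (e + 1) t).card +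
        (Seen L S (e + 1) (e + 1)).card := (Finset.card_le_card hPsub).trans (Finset.card_union_le _ _)
    have h2 : (Seen L S s s).card ≤ (Seen L S s t \ Seen L S (e + 1) t).card := Finset.card_le_card hAout
    have h3 : (Seen L S s t \ Seen L S (e + 1) t).card + (Seen L S (e + 1) t).card = (Seen L S s t).card :=
      Finset.card_sdiff_add_card_eq_card hN'
    set O := (Seen L S s t \ Seen L S (e + 1) t).card
    set A' := (Seen L S (e + 1) (e + 1)).card
    set N' := (Seen L S (e + 1) t).card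
    set P := (Seen L (x ::ₘ S) s e).card
    set A := (Seen L S s s).card
    rw [← h3]
    have h4 := Nat.mul_le_mul_left q h1
    have h5 := Nat.mul_le_mul_left q h2
    have h6 : q * (O + A') = q * O + q * A' := Nat.mul_add _ _ _
    have h7 : 2 * q * (O + N') = q * O + q * O + 2 * q * N' := by ring
    omega

/-- The length of an interval of layers in which a multiset of size `d - r` is active. -/
theorem rank_bound (h : IsCLM n d k L) : ∀ (r : ℕ), 1 ≤ r → ∀ (S : Multiset (Fin n)), Multiset.card S + r = d →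
    ∀ s t, s ≤ t → t ≤ k → (∀ l, s ≤ l → l ≤ t → Act L S l) →
      t + 2 ^ (r - 1) ≤ s + 2 ^ (r - 1) * (Seen L S s t).card := by
  intro r hr
  induction r, hr using Nat.le_induction with
  | base =>
    intro S hS s t hst ht hact
    have := rank_one h S hS s t hst ht hact
    simpa using this
  | succ r hr ih =>
    intro S hS s t hst ht hact
    have h1 := rank_step h (2 ^ (r - 1)) r Nat.one_le_two_pow ih S hS (t - s) s t (by omega) hst ht hact
    have hne : 1 ≤ (Seen L S s s).card := by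
      obtain ⟨a, ha⟩ := h.extend (hst.trans ht) (by omega) (hact s le_rfl hst)
      exact Finset.card_pos.2 ⟨a, mem_seen.2 ⟨s, le_rfl, le_rfl, ha⟩⟩
    have h2 : 2 ^ (r + 1 - 1) = 2 * 2 ^ (r - 1) := by
      obtain ⟨r, rfl⟩ := Nat.exists_eq_add_of_le' hr
      simp [pow_succ, mul_comm]
    rw [h2]
    have h3 := Nat.mul_le_mul_left (2 ^ (r - 1)) hne
    omega

/-- Two facets at distance `D ≥ 1` lie at most `2^(D-1) (n-1)` layers apart. -/
theorem layer_dist (h : IsCLM n d k L) {X Y : Multiset (Fin n)} {i j : ℕ} (hij : i ≤ j) (hj : j ≤ k) (hX : X ∈ L i)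
    (hY : Y ∈ L j) (hD : 1 ≤ dist X Y) : j ≤ i + 2 ^ (dist X Y - 1) * (n - 1) := by
  classical
  have hcX := h.card i (hij.trans hj) X hX
  have h1 : Multiset.card (X ∩ Y) + dist X Y = d := by
    rw [← hcX]
    unfold dist
    rw [← Multiset.card_add]
    congr 1
    ext a
    simp only [Multiset.count_add, Multiset.count_inter, Multiset.count_sub]
    omega
  have hact : ∀ l, i ≤ l → l ≤ j → Act L (X ∩ Y) l := fun l h1 h2 =>
    h.act h1 h2 hj ⟨X, hX, Multiset.inter_le_left⟩ ⟨Y, hY, Multiset.inter_le_right⟩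
  have h2 := rank_bound h (dist X Y) hD (X ∩ Y) h1 i j hij hj hact
  have h3 : (Seen L (X ∩ Y) i j).card ≤ n := by
    calc (Seen L (X ∩ Y) i j).card ≤ (Finset.univ : Finset (Fin n)).card := Finset.card_le_card (Finset.subset_univ _)
      _ = n := by simp
  have h4 := Nat.mul_le_mul_left (2 ^ (dist X Y - 1)) h3
  have hn : 1 ≤ n := by
    rcases Nat.eq_zero_or_pos n with h0 | h0
    · have h5 : (Seen L (X ∩ Y) i j).card = 0 := by omega
      rw [h5] at h2
      have : 1 ≤ 2 ^ (dist X Y - 1) := Nat.one_le_two_pow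
      omega
    · exact h0
  obtain ⟨n', rfl⟩ := Nat.exists_eq_add_of_le' hn
  rw [Nat.add_sub_cancel]
  rw [Nat.mul_succ] at h4
  omega

end Pool.Agent.Lib.MP_51ebd4_co
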