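import Pool.Agent.Lib.MP_51ebd4_co.Gap

/-!
# Families of connected layer multicomplexes with small gaps
-/

set_option autoImplicit false

namespace Pool.Agent.Lib.MP_51ebd4_co

variable {n d k : ℕ} {L : ℕ → Finset (Multiset (Fin n))}

/-- The facets satisfy the exchange property of the bases of a discrete polymatroid. -/
def Exchange (k : ℕ) (L : ℕ → Finset (Multiset (Fin n))) : Prop :=
  ∀ X Y, Facet k L X → Facet k L Y → ∀ x ∈ X - Y, ∃ y ∈ Y - X, Facet k L (y ::ₘ X.erase x)

/-- The set of facets is strongly stable: an element of a facet can be replaced by a smaller one. -/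
def StronglyStable (k : ℕ) (L : ℕ → Finset (Multiset (Fin n))) : Prop :=
  ∀ X, Facet k L X → ∀ x ∈ X, ∀ y, y < x → Facet k L (y ::ₘ X.erase x)

/-- The facets are the multisets of size `d` of weight at most `B`, for some weights. -/
def Threshold (d k : ℕ) (L : ℕ → Finset (Multiset (Fin n))) : Prop :=
  ∃ (c : Fin n → ℝ) (B : ℝ), ∀ X : Multiset (Fin n), Multiset.card X = d → (Facet k L X ↔ (X.map c).sum ≤ B)

/-- There are no `g` different multisets of size `d` which are not facets and of which consecutive ones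
are at distance one. -/
def NoPath (d k : ℕ) (L : ℕ → Finset (Multiset (Fin n))) (g : ℕ) : Prop :=
  ∀ Z : ℕ → Multiset (Fin n), (∀ i, i < g → Multiset.card (Z i) = d) → (∀ i, i + 1 < g → dist (Z i) (Z (i + 1)) = 1) →
    (∀ i j, i < j → j < g → Z i ≠ Z j) → ∃ i, i < g ∧ Facet k L (Z i)

theorem exists_mem_sub {X Y : Multiset (Fin n)} (hc : Multiset.card X = Multiset.card Y) (hne : X ≠ Y) :
    ∃ x, x ∈ X - Y := by
  refine Multiset.exists_mem_of_ne_zero fun h => hne ?_
  rw [tsub_eq_zero_iff_le] at h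
  exact Multiset.eq_of_le_of_card_le h hc.symm.le

theorem IsCLM.card_facet (h : IsCLM n d k L) {X : Multiset (Fin n)} (hX : Facet k L X) : Multiset.card X = d := by
  obtain ⟨i, hi, hXi⟩ := hX
  exact h.card i hi X hXi

theorem gap_exchange (h : IsCLM n d k L) (hM : Exchange k L) : Gap k L 2 := by
  refine gap_of_exch h fun X Y hX hY hne => ?_
  obtain ⟨x, hx⟩ := exists_mem_sub ((h.card_facet hX).trans (h.card_facet hY).symm) hne
  obtain ⟨y, hy, hZ⟩ := hM X Y hX hY x hx
  exact ⟨x, hx, y, hy, Or.inl hZ⟩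

theorem gap_stable (h : IsCLM n d k L) (hM : StronglyStable k L) : Gap k L 2 := by
  refine gap_of_exch h fun X Y hX hY hne => ?_
  have hc := (h.card_facet hX).trans (h.card_facet hY).symm
  obtain ⟨x, hx⟩ := exists_mem_sub hc hne
  obtain ⟨y, hy⟩ := exists_mem_sub hc.symm hne.symm
  refine ⟨x, hx, y, hy, ?_⟩
  have hne' : x ≠ y := by
    rintro rfl
    rw [Multiset.mem_sub] at hx hy
    omega
  rcases lt_or_gt_of_ne hne' with h1 | h1
  · exact Or.inr (hM Y hY y (Multiset.mem_of_le (Multiset.sub_le_self Y X) hy) x h1)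
  · exact Or.inl (hM X hX x (Multiset.mem_of_le (Multiset.sub_le_self X Y) hx) y h1)

theorem sum_exch {X : Multiset (Fin n)} {x : Fin n} (hx : x ∈ X) (y : Fin n) (c : Fin n → ℝ) :
    ((y ::ₘ X.erase x).map c).sum + c x = (X.map c).sum + c y := by
  have h1 : (X.map c).sum = ((x ::ₘ X.erase x).map c).sum := by rw [Multiset.cons_erase hx]
  rw [h1]
  simp only [Multiset.map_cons, Multiset.sum_cons]
  ring

theorem gap_threshold (h : IsCLM n d k L) (hM : Threshold d k L) : Gap k L 2 := by
  obtain ⟨c, B, hM⟩ := hM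
  refine gap_of_exch h fun X Y hX hY hne => ?_
  have hcX := h.card_facet hX
  have hcY := h.card_facet hY
  have hc := hcX.trans hcY.symm
  obtain ⟨x, hx⟩ := exists_mem_sub hc hne
  obtain ⟨y, hy⟩ := exists_mem_sub hc.symm hne.symm
  have hxX : x ∈ X := Multiset.mem_of_le (Multiset.sub_le_self X Y) hx
  have hyY : y ∈ Y := Multiset.mem_of_le (Multiset.sub_le_self Y X) hy
  refine ⟨x, hx, y, hy, ?_⟩
  rcases le_total (c y) (c x) with h1 | h1
  · refine Or.inl ((hM _ ?_).2 ?_)
    · rw [Multiset.card_cons, Multiset.card_erase_add_one hxX, hcX]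
    · have h2 := sum_exch hxX y c
      have h3 := (hM X hcX).1 hX
      linarith
  · refine Or.inr ((hM _ ?_).2 ?_)
    · rw [Multiset.card_cons, Multiset.card_erase_add_one hyY, hcY]
    · have h2 := sum_exch hyY x c
      have h3 := (hM Y hcY).1 hY
      linarith

theorem gap_nopath (h : IsCLM n d k L) {g : ℕ} (hM : NoPath d k L g) : Gap k L g := by
  intro X Y hX hY hD
  have hcX := h.card_facet hX
  have hcY := h.card_facet hY
  have hstep : ∀ W : Multiset (Fin n), ∃ W' : Multiset (Fin n), Multiset.card W = d → 0 < dist W Y →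
      Multiset.card W' = d ∧ dist W W' = 1 ∧ dist W' Y + 1 = dist W Y := by
    intro W
    by_cases hW : Multiset.card W = d ∧ 0 < dist W Y
    · have hne : W ≠ Y := by
        rintro rfl
        have h1 := hW.2
        unfold dist at h1
        rw [tsub_self, Multiset.card_zero] at h1
        omega
      have hc : Multiset.card W = Multiset.card Y := hW.1.trans hcY.symm
      obtain ⟨x, hx⟩ := exists_mem_sub hc hne
      obtain ⟨y, hy⟩ := exists_mem_sub hc.symm hne.symm
      have hxW : x ∈ W := Multiset.mem_of_le (Multiset.sub_le_self W Y) hx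
      obtain ⟨h1, h2⟩ := exch_left hx hy
      exact ⟨y ::ₘ W.erase x, fun _ _ => ⟨by rw [Multiset.card_cons, Multiset.card_erase_add_one hxW, hW.1], h1, h2⟩⟩
    · exact ⟨W, fun h1 h2 => absurd ⟨h1, h2⟩ hW⟩
  choose f hf using hstep
  let Z : ℕ → Multiset (Fin n) := fun i => f^[i] X
  have hZs : ∀ i, Z (i + 1) = f (Z i) := fun i => Function.iterate_succ_apply' f i X
  have hself : ∀ W : Multiset (Fin n), dist W W = 0 := by
    intro W
    unfold dist
    rw [tsub_self, Multiset.card_zero]
  have hZ : ∀ i, i ≤ dist X Y → Multiset.card (Z i) = d ∧ dist X (Z i) ≤ i ∧ dist (Z i) Y + i = dist X Y := by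
    intro i
    induction i with
    | zero =>
      intro _
      have h0 : Z 0 = X := rfl
      rw [h0]
      exact ⟨hcX, by rw [hself], rfl⟩
    | succ i ih =>
      intro hi
      obtain ⟨h1, h2, h3⟩ := ih (by omega)
      obtain ⟨h4, h5, h6⟩ := hf (Z i) h1 (by omega)
      rw [hZs]
      refine ⟨h4, ?_, by omega⟩
      have h7 := dist_triangle X (f (Z i)) (Z i)
      omega
  obtain ⟨i, hi, hfac⟩ := hM (fun i => Z (i + 1)) (fun i hi => (hZ (i + 1) (by omega)).1) (fun i hi => by
    obtain ⟨h1, h2, h3⟩ := hZ (i + 1) (by omega)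
    have h4 := (hf (Z (i + 1)) h1 (by omega)).2.1
    rw [← hZs] at h4
    exact h4) (fun i j hij hj heq => by
    have h1 := (hZ (i + 1) (by omega)).2.2
    have h2 := (hZ (j + 1) (by omega)).2.2
    have h3 : dist (Z (i + 1)) Y = dist (Z (j + 1)) Y := congrArg (fun W => dist W Y) heq
    omega)
  obtain ⟨h1, h2, h3⟩ := hZ (i + 1) (by omega)
  have h4 := dist_triangle X Y (Z (i + 1))
  refine ⟨Z (i + 1), hfac, ?_, ?_, by omega⟩
  · intro h5
    rw [h5] at h3
    omega
  · intro h5
    rw [h5, hself] at h3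
    omega

end Pool.Agent.Lib.MP_51ebd4_co
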