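import Pool.Agent.Lib.MP_51ebd4_co.Clm

/-!
# Connected layer multicomplexes with bounded gaps
-/

set_option autoImplicit false

namespace Pool.Agent.Lib.MP_51ebd4_co

variable {n d k : ℕ} {L : ℕ → Finset (Multiset (Fin n))}

/-- Any two facets at distance greater than `g` have a facet strictly between them. -/
def Gap (k : ℕ) (L : ℕ → Finset (Multiset (Fin n))) (g : ℕ) : Prop :=
  ∀ X Y, Facet k L X → Facet k L Y → g < dist X Y →
    ∃ Z, Facet k L Z ∧ Z ≠ X ∧ Z ≠ Y ∧ dist X Z + dist Z Y = dist X Y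

theorem eq_of_dist {X Y : Multiset (Fin n)} (hc : Multiset.card X = Multiset.card Y) (h : dist X Y = 0) : X = Y := by
  unfold dist at h
  rw [Multiset.card_eq_zero, tsub_eq_zero_iff_le] at h
  exact Multiset.eq_of_le_of_card_le h hc.symm.le

theorem dist_triangle (X Y Z : Multiset (Fin n)) : dist X Y ≤ dist X Z + dist Z Y := by
  unfold dist
  rw [← Multiset.card_add]
  refine Multiset.card_le_card ?_
  rw [Multiset.le_iff_count]
  intro a
  simp only [Multiset.count_add, Multiset.count_sub]
  omega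

theorem dist_comm {X Y : Multiset (Fin n)} (hc : Multiset.card X = Multiset.card Y) : dist X Y = dist Y X := by
  have h1 : Multiset.card (X ∩ Y) + dist X Y = Multiset.card X := by
    unfold dist
    rw [← Multiset.card_add]
    congr 1
    ext a
    simp only [Multiset.count_add, Multiset.count_inter, Multiset.count_sub]
    omega
  have h2 : Multiset.card (X ∩ Y) + dist Y X = Multiset.card Y := by
    unfold dist
    rw [← Multiset.card_add]
    congr 1
    ext a
    simp only [Multiset.count_add, Multiset.count_inter, Multiset.count_sub]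
    omega
  omega

theorem dist_le_card (X Y : Multiset (Fin n)) : dist X Y ≤ Multiset.card X :=
  Multiset.card_le_card (Multiset.sub_le_self X Y)

/-- The layers of the ends of a chain of facets. -/
theorem chain_bound (h : IsCLM n d k L) (Z : ℕ → Multiset (Fin n)) (l : ℕ → ℕ) : ∀ q : ℕ,
    (∀ i, i ≤ q → l i ≤ k ∧ Z i ∈ L (l i)) →
      l q ≤ l 0 + (∑ i ∈ Finset.range q, 2 ^ (dist (Z i) (Z (i + 1)) - 1)) * (n - 1) := by
  intro q
  induction q with
  | zero =>
    intro _
    simp
  | succ q ih =>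
    intro hZ
    have h1 := ih fun i hi => hZ i (by omega)
    obtain ⟨h2, h3⟩ := hZ q (by omega)
    obtain ⟨h4, h5⟩ := hZ (q + 1) le_rfl
    rw [Finset.sum_range_succ, Nat.add_mul, ← Nat.add_assoc]
    have h6 : l (q + 1) ≤ l q + 2 ^ (dist (Z q) (Z (q + 1)) - 1) * (n - 1) := by
      rcases Nat.eq_zero_or_pos (dist (Z q) (Z (q + 1))) with h0 | hpos
      · have h7 : Z q = Z (q + 1) := eq_of_dist ((h.card _ h2 _ h3).trans (h.card _ h4 _ h5).symm) h0
        have h8 : l q = l (q + 1) := by
          by_contra hne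
          refine Finset.disjoint_left.1 (h.disj _ _ h2 h4 hne) h3 ?_
          rw [h7]
          exact h5
        omega
      · rcases Nat.lt_or_ge (l (q + 1)) (l q) with h9 | h9
        · omega
        · exact layer_dist h h9 h4 h3 h5 hpos
    omega

/-- `g ≤ 2^(g-D) D` for `1 ≤ D ≤ g`. -/
theorem pow_aux (D : ℕ) (hD : 1 ≤ D) : ∀ g, D ≤ g → g * 2 ^ (D - 1) ≤ 2 ^ (g - 1) * D := by
  intro g hg
  induction g, hg using Nat.le_induction with
  | base => rw [mul_comm]
  | succ g hg ih =>
    have h1 : 2 ^ (g + 1 - 1) = 2 * 2 ^ (g - 1) := by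
      obtain ⟨g, rfl⟩ := Nat.exists_eq_add_of_le' (hD.trans hg)
      simp [pow_succ, mul_comm]
    rw [h1]
    have h2 : (g + 1) * 2 ^ (D - 1) ≤ 2 * (g * 2 ^ (D - 1)) := by
      have h3 : g + 1 ≤ 2 * g := by omega
      calc (g + 1) * 2 ^ (D - 1) ≤ (2 * g) * 2 ^ (D - 1) := Nat.mul_le_mul_right _ h3
        _ = _ := by ring
    calc (g + 1) * 2 ^ (D - 1) ≤ 2 * (g * 2 ^ (D - 1)) := h2
      _ ≤ 2 * (2 ^ (g - 1) * D) := Nat.mul_le_mul_left 2 ih
      _ = _ := by ring

/-- If the gaps are at most `g`, then the number of layers between two facets is at most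
`(2^(g-1) / g) (n-1)` times their distance. -/
theorem gap_dist (h : IsCLM n d k L) {g : ℕ} (_hg : 1 ≤ g) (hgap : Gap k L g) :
    ∀ (m : ℕ) (X Y : Multiset (Fin n)) (i j : ℕ), dist X Y ≤ m → i ≤ k → j ≤ k → X ∈ L i → Y ∈ L j →
      g * j ≤ g * i + 2 ^ (g - 1) * dist X Y * (n - 1) := by
  intro m
  induction m using Nat.strong_induction_on with
  | _ m IH =>
  intro X Y i j hm hi hj hX hY
  have hcX := h.card i hi X hX
  have hcY := h.card j hj Y hY
  rcases Nat.eq_zero_or_pos (dist X Y) with h0 | hpos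
  · have h1 : X = Y := eq_of_dist (hcX.trans hcY.symm) h0
    have h2 : i = j := by
      by_contra hne
      refine Finset.disjoint_left.1 (h.disj i j hi hj hne) hX ?_
      rw [h1]
      exact hY
    rw [h2]
    exact Nat.le_add_right _ _
  rcases Nat.lt_or_ge g (dist X Y) with hlt | hle
  · obtain ⟨Z, ⟨l, hl, hZ⟩, hZX, hZY, hsum⟩ := hgap X Y ⟨i, hi, hX⟩ ⟨j, hj, hY⟩ hlt
    have hcZ := h.card l hl Z hZ
    have h1 : dist X Z ≠ 0 := fun h0 => hZX (eq_of_dist (hcX.trans hcZ.symm) h0).symm
    have h2 : dist Z Y ≠ 0 := fun h0 => hZY (eq_of_dist (hcZ.trans hcY.symm) h0)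
    have h3 := IH (dist X Z) (by omega) X Z i l le_rfl hi hl hX hZ
    have h4 := IH (dist Z Y) (by omega) Z Y l j le_rfl hl hj hZ hY
    have h5 : 2 ^ (g - 1) * dist X Y * (n - 1) = 2 ^ (g - 1) * dist X Z * (n - 1) + 2 ^ (g - 1) * dist Z Y * (n - 1) := by
      rw [← hsum]
      ring
    omega
  · rcases Nat.lt_or_ge j i with hji | hij
    · have h1 := Nat.mul_le_mul_left g hji.le
      omega
    · have h1 := layer_dist h hij hj hX hY hpos
      have h2 := pow_aux (dist X Y) hpos g hle
      calc g * j ≤ g * (i + 2 ^ (dist X Y - 1) * (n - 1)) := Nat.mul_le_mul_left g h1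
        _ = g * i + g * 2 ^ (dist X Y - 1) * (n - 1) := by ring
        _ ≤ g * i + 2 ^ (g - 1) * dist X Y * (n - 1) := by
          refine Nat.add_le_add_left (Nat.mul_le_mul_right _ h2) _

theorem gap_bound (h : IsCLM n d k L) {g : ℕ} (hg : 1 ≤ g) (hgap : Gap k L g) :
    g * k ≤ 2 ^ (g - 1) * (d * (n - 1)) := by
  obtain ⟨X, hX⟩ := h.nonempty 0 (Nat.zero_le _)
  obtain ⟨Y, hY⟩ := h.nonempty k le_rfl
  have h1 := gap_dist h hg hgap (dist X Y) X Y 0 k le_rfl (Nat.zero_le _) le_rfl hX hY
  have h2 : dist X Y ≤ d := (dist_le_card X Y).trans (h.card 0 (Nat.zero_le _) X hX).le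
  calc g * k ≤ g * 0 + 2 ^ (g - 1) * dist X Y * (n - 1) := h1
    _ = 2 ^ (g - 1) * (dist X Y * (n - 1)) := by ring
    _ ≤ 2 ^ (g - 1) * (d * (n - 1)) := Nat.mul_le_mul_left _ (Nat.mul_le_mul_right _ h2)

/-- Gaps at most two: the bound of the conjecture. -/
theorem gap_two (h : IsCLM n d k L) (hgap : Gap k L 2) : k ≤ d * (n - 1) := by
  have h1 := gap_bound h (by norm_num) hgap
  have h2 : (2 : ℕ) ^ (2 - 1) = 2 := rfl
  rw [h2] at h1
  omega

theorem exch_left {X Y : Multiset (Fin n)} {x y : Fin n} (hx : x ∈ X - Y) (hy : y ∈ Y - X) :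
    dist X (y ::ₘ X.erase x) = 1 ∧ dist (y ::ₘ X.erase x) Y + 1 = dist X Y := by
  rw [Multiset.mem_sub] at hx hy
  have hne : x ≠ y := by
    rintro rfl
    omega
  constructor
  · have h1 : X - (y ::ₘ X.erase x) = {x} := by
      ext a
      simp only [Multiset.count_sub, Multiset.count_cons, Multiset.count_singleton]
      rcases eq_or_ne a x with rfl | hax
      · rw [Multiset.count_erase_self, if_neg hne, if_pos rfl]
        omega
      · rw [Multiset.count_erase_of_ne hax, if_neg hax]
        split_ifs <;> omega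
    unfold dist
    rw [h1, Multiset.card_singleton]
  · have h1 : (y ::ₘ X.erase x) - Y = (X - Y).erase x := by
      ext a
      simp only [Multiset.count_sub, Multiset.count_cons]
      rcases eq_or_ne a x with rfl | hax
      · rw [Multiset.count_erase_self, Multiset.count_erase_self, Multiset.count_sub, if_neg hne]
        omega
      · rw [Multiset.count_erase_of_ne hax, Multiset.count_erase_of_ne hax, Multiset.count_sub]
        split_ifs with hay
        · subst hay
          omega
        · omega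
    have hx' : x ∈ X - Y := by
      rw [Multiset.mem_sub]
      exact hx
    unfold dist
    rw [h1, Multiset.card_erase_add_one hx']

/-- An exchange yields a facet between two facets. -/
theorem exch_between {X Y : Multiset (Fin n)} {x y : Fin n} (hc : Multiset.card X = Multiset.card Y)
    (hx : x ∈ X - Y) (hy : y ∈ Y - X) {Z : Multiset (Fin n)} (hZ : Z = y ::ₘ X.erase x ∨ Z = x ::ₘ Y.erase y)
    (hD : 2 ≤ dist X Y) : Z ≠ X ∧ Z ≠ Y ∧ dist X Z + dist Z Y = dist X Y := by
  have hself : ∀ W : Multiset (Fin n), dist W W = 0 := by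
    intro W
    unfold dist
    rw [tsub_self, Multiset.card_zero]
  rcases hZ with rfl | rfl
  · obtain ⟨h1, h2⟩ := exch_left hx hy
    refine ⟨?_, ?_, by omega⟩
    · intro h3
      rw [h3, hself] at h1
      omega
    · intro h3
      rw [h3, hself] at h2
      omega
  · obtain ⟨h1, h2⟩ := exch_left hy hx
    have hxX : x ∈ X := Multiset.mem_of_le (Multiset.sub_le_self X Y) hx
    have hyY : y ∈ Y := Multiset.mem_of_le (Multiset.sub_le_self Y X) hy
    have hcZ : Multiset.card (x ::ₘ Y.erase y) = Multiset.card Y := by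
      rw [Multiset.card_cons, Multiset.card_erase_add_one hyY]
    rw [dist_comm (by rw [hcZ])] at h1
    rw [dist_comm (by rw [hcZ, hc])] at h2
    rw [dist_comm hc.symm] at h2
    refine ⟨?_, ?_, by omega⟩
    · intro h3
      rw [h3, hself] at h2
      omega
    · intro h3
      rw [h3, hself] at h1
      omega

/-- The weak exchange property implies that the gaps are at most one. -/
theorem gap_of_exch (h : IsCLM n d k L) (hex : ∀ X Y, Facet k L X → Facet k L Y → X ≠ Y →
    ∃ x ∈ X - Y, ∃ y ∈ Y - X, Facet k L (y ::ₘ X.erase x) ∨ Facet k L (x ::ₘ Y.erase y)) : Gap k L 2 := by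
  intro X Y hX hY hD
  have hcc : Multiset.card X = Multiset.card Y := by
    obtain ⟨i, hi, hXi⟩ := hX
    obtain ⟨j, hj, hYj⟩ := hY
    rw [h.card i hi X hXi, h.card j hj Y hYj]
  have hne : X ≠ Y := by
    rintro rfl
    unfold dist at hD
    rw [tsub_self, Multiset.card_zero] at hD
    omega
  obtain ⟨x, hx, y, hy, hZ⟩ := hex X Y hX hY hne
  rcases hZ with hZ | hZ
  · exact ⟨_, hZ, exch_between hcc hx hy (Or.inl rfl) (by omega)⟩
  · exact ⟨_, hZ, exch_between hcc hx hy (Or.inr rfl) (by omega)⟩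

end Pool.Agent.Lib.MP_51ebd4_co
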