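import Pool.Agent.Lib.MP_51ebd4_co.Gap

/-!
# Connected layer multicomplexes whose links of codimension two have no triangles

Choose the element which is active for the longest time among the neighbours of the last one; this
gives the bound `N - 2` for the length of a triangle-free link of rank two with `N` active elements.
-/

set_option autoImplicit false

namespace Pool.Agent.Lib.MP_51ebd4_co

variable {n d k : ℕ} {L : ℕ → Finset (Multiset (Fin n))}

/-- The link of a multiset `S` of size `d - 2` has no triangle, where `u`, `v`, `w` may be equal (so it has no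
loop either). -/
def TriFree (d k : ℕ) (L : ℕ → Finset (Multiset (Fin n))) : Prop :=
  ∀ S : Multiset (Fin n), Multiset.card S + 2 = d → ∀ u v w, Facet k L (u ::ₘ v ::ₘ S) → Facet k L (v ::ₘ w ::ₘ S) →
    ¬ Facet k L (u ::ₘ w ::ₘ S)

/-- Triangle-free rank two. `W` is an independent set of elements active in the first layer. -/
theorem tri_bound (h : IsCLM n d k L) (hb : TriFree d k L) (S : Multiset (Fin n)) (hS : Multiset.card S + 2 = d) :
    ∀ (m s t : ℕ), t ≤ s + m → s ≤ t → t ≤ k → (∀ l, s ≤ l → l ≤ t → Act L S l) → ∀ W : Finset (Fin n), W.Nonempty →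
      (∀ a ∈ W, Act L (a ::ₘ S) s) → (∀ a ∈ W, ∀ b ∈ W, ¬ Facet k L (a ::ₘ b ::ₘ S)) →
      t + 1 + W.card ≤ s + (Seen L S s t).card := by
  classical
  intro m
  induction m using Nat.strong_induction_on with
  | _ m IH =>
  intro s t hm hst ht hact W hne hWact hWind
  have hfull : ∀ l, l ≤ k → ∀ u v, Act L (u ::ₘ v ::ₘ S) l → Facet k L (u ::ₘ v ::ₘ S) := by
    rintro l hl u v ⟨F, hF, hle⟩
    have h1 : u ::ₘ v ::ₘ S = F := Multiset.eq_of_le_of_card_le hle (by
      rw [h.card l hl F hF, Multiset.card_cons, Multiset.card_cons, ← hS])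
    refine ⟨l, hl, ?_⟩
    rw [h1]
    exact hF
  have hR : ∀ a : Fin n, ∃ e, a ∈ W → s ≤ e ∧ e ≤ t ∧ Act L (a ::ₘ S) e ∧
      ∀ l, e < l → l ≤ t → ¬ Act L (a ::ₘ S) l := by
    intro a
    by_cases ha : a ∈ W
    · have ha1 := hWact a ha
      let T := (Finset.Icc s t).filter fun e => Act L (a ::ₘ S) e
      have hT : T.Nonempty := ⟨s, by simp [T, ha1, hst]⟩
      refine ⟨T.max' hT, fun _ => ?_⟩
      have h1 := Finset.mem_filter.1 (T.max'_mem hT)
      rw [Finset.mem_Icc] at h1
      refine ⟨h1.1.1, h1.1.2, h1.2, ?_⟩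
      intro l' hl' hl't hact'
      have h2 : l' ∈ T := by
        simp only [T, Finset.mem_filter, Finset.mem_Icc]
        exact ⟨⟨by omega, hl't⟩, hact'⟩
      have h3 := T.le_max' l' h2
      omega
    · exact ⟨0, fun h' => absurd h' ha⟩
  choose R hR using hR
  obtain ⟨x, hx, hmax⟩ := Finset.exists_max_image W R hne
  obtain ⟨he1, he2, he3, he4⟩ := hR x hx
  have hxs := hWact x hx
  set e := R x with he
  have hout : ∀ a ∈ W, ∀ l, e < l → l ≤ t → ¬ Act L (a ::ₘ S) l := by
    intro a ha l hl hlt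
    exact (hR a ha).2.2.2 l (lt_of_le_of_lt (hmax a ha) hl) hlt
  -- the link of `x`
  have hP := rank_one h (x ::ₘ S) (by rw [Multiset.card_cons]; omega) s e he1 (he2.trans ht)
    (fun l hl1 hl2 => h.act hl1 hl2 (he2.trans ht) hxs he3)
  have hPN : ∀ b ∈ Seen L (x ::ₘ S) s e, b ∈ Seen L S s e := by
    intro b hb
    obtain ⟨l, hl1, hl2, hl3⟩ := mem_seen.1 hb
    refine mem_seen.2 ⟨l, hl1, hl2, hl3.mono ?_⟩
    exact Multiset.cons_le_cons b (Multiset.le_cons_self S x)
  have hPf : ∀ b ∈ Seen L (x ::ₘ S) s e, Facet k L (b ::ₘ x ::ₘ S) := by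
    intro b hb
    obtain ⟨l, hl1, hl2, hl3⟩ := mem_seen.1 hb
    exact hfull l (by omega) b x hl3
  have hPW : Disjoint (Seen L (x ::ₘ S) s e) W := by
    rw [Finset.disjoint_left]
    intro b hb1 hb2
    exact hWind b hb2 x hx (hPf b hb1)
  have hPind : ∀ a ∈ Seen L (x ::ₘ S) s e, ∀ b ∈ Seen L (x ::ₘ S) s e, ¬ Facet k L (a ::ₘ b ::ₘ S) := by
    intro a ha b hb' hab
    have h1 := hPf b hb'
    rw [Multiset.cons_swap] at h1
    exact hb S hS a x b (hPf a ha) h1 hab
  have hsub : ∀ {s' t' : ℕ}, s ≤ s' → t' ≤ t → Seen L S s' t' ⊆ Seen L S s t := by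
    intro s' t' h1 h2 b hb
    obtain ⟨l, hl1, hl2, hl3⟩ := mem_seen.1 hb
    exact mem_seen.2 ⟨l, by omega, by omega, hl3⟩
  have hWsub : W ⊆ Seen L S s t := by
    intro a ha
    exact mem_seen.2 ⟨s, le_rfl, hst, hWact a ha⟩
  by_cases het : e = t
  · have h1 : (Seen L (x ::ₘ S) s e ∪ W).card ≤ (Seen L S s t).card :=
      Finset.card_le_card (Finset.union_subset (fun b hb => hsub le_rfl he2 (hPN b hb)) hWsub)
    rw [Finset.card_union_of_disjoint hPW] at h1
    omega
  · have hlt : e < t := lt_of_le_of_ne he2 het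
    -- the neighbours of `x` which are still active
    set P := Seen L (x ::ₘ S) s e with hPdef
    set N' := Seen L S (e + 1) t with hN'def
    have hPact : ∀ b ∈ P ∩ N', Act L (b ::ₘ S) (e + 1) := by
      intro b hb'
      obtain ⟨hb1, hb2⟩ := Finset.mem_inter.1 hb'
      obtain ⟨l, hl1, hl2, hl3⟩ := mem_seen.1 (hPN b hb1)
      obtain ⟨l', hl1', hl2', hl3'⟩ := mem_seen.1 hb2
      exact h.act (i := l) (j := l') (by omega) (by omega) (by omega) hl3 hl3'
    have hrec : t + 1 + (P ∩ N').card ≤ e + 1 + N'.card := by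
      rcases (P ∩ N').eq_empty_or_nonempty with h0 | h0
      · -- start again
        obtain ⟨y, hy⟩ := h.extend (S := S) (l := e + 1) (by omega) (by omega) (hact (e + 1) (by omega) (by omega))
        have h1 := IH (t - (e + 1)) (by omega) (e + 1) t (by omega) (by omega) ht
          (fun l hl1 hl2 => hact l (by omega) hl2) {y} (Finset.singleton_nonempty y)
          (fun a ha => by rw [Finset.mem_singleton.1 ha]; exact hy)
          (fun a ha b hb' => by
            rw [Finset.mem_singleton.1 ha, Finset.mem_singleton.1 hb']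
            intro h2
            exact hb S hS y y y h2 h2 h2)
        rw [Finset.card_singleton, ← hN'def] at h1
        rw [h0, Finset.card_empty]
        omega
      · exact IH (t - (e + 1)) (by omega) (e + 1) t (by omega) (by omega) ht
          (fun l hl1 hl2 => hact l (by omega) hl2) (P ∩ N') h0 hPact
          (fun a ha b hb' => hPind a (Finset.mem_inter.1 ha).1 b (Finset.mem_inter.1 hb').1)
    have hN' : N' ⊆ Seen L S s t := hsub (by omega) le_rfl
    have h1 : (P \ N').card + (P ∩ N').card = P.card := by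
      rw [add_comm]
      exact Finset.card_inter_add_card_sdiff P N'
    have hd1 : Disjoint (P \ N') N' := Finset.sdiff_disjoint
    have hd2 : Disjoint ((P \ N') ∪ N') W := by
      rw [Finset.disjoint_left]
      intro b hb1 hb2
      rcases Finset.mem_union.1 hb1 with hb1 | hb1
      · exact Finset.disjoint_left.1 hPW (Finset.mem_sdiff.1 hb1).1 hb2
      · obtain ⟨l, hl1, hl2, hl3⟩ := mem_seen.1 hb1
        exact hout b hb2 l (by omega) hl2 hl3
    have h2 : (((P \ N') ∪ N') ∪ W).card ≤ (Seen L S s t).card := by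
      refine Finset.card_le_card (Finset.union_subset (Finset.union_subset ?_ hN') hWsub)
      intro b hb'
      exact hsub le_rfl he2 (hPN b (Finset.mem_sdiff.1 hb').1)
    rw [Finset.card_union_of_disjoint hd2, Finset.card_union_of_disjoint hd1] at h2
    omega

/-- Triangle-free rank two: the length is at most the number of active elements minus two. -/
theorem tri_two (h : IsCLM n d k L) (hb : TriFree d k L) (S : Multiset (Fin n)) (hS : Multiset.card S + 2 = d) (s t : ℕ)
    (hst : s ≤ t) (ht : t ≤ k) (hact : ∀ l, s ≤ l → l ≤ t → Act L S l) : t + 2 ≤ s + (Seen L S s t).card := by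
  obtain ⟨y, hy⟩ := h.extend (S := S) (l := s) (by omega) (by omega) (hact s le_rfl hst)
  have h1 := tri_bound h hb S hS (t - s) s t (by omega) hst ht hact {y} (Finset.singleton_nonempty y)
    (fun a ha => by rw [Finset.mem_singleton.1 ha]; exact hy)
    (fun a ha b hb' => by
      rw [Finset.mem_singleton.1 ha, Finset.mem_singleton.1 hb']
      intro h2
      exact hb S hS y y y h2 h2 h2)
  rw [Finset.card_singleton] at h1
  omega

/-- The bound `2^(r-2)` for the rank `r ≥ 2`. -/
theorem tri_rank (h : IsCLM n d k L) (hb : TriFree d k L) : ∀ (r : ℕ), 2 ≤ r → ∀ (S : Multiset (Fin n)),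
    Multiset.card S + r = d → ∀ s t, s ≤ t → t ≤ k → (∀ l, s ≤ l → l ≤ t → Act L S l) →
      t + 2 ^ (r - 2) ≤ s + 2 ^ (r - 2) * (Seen L S s t).card := by
  intro r hr
  induction r, hr using Nat.le_induction with
  | base =>
    intro S hS s t hst ht hact
    have h1 := tri_two h hb S hS s t hst ht hact
    have h2 : 2 ^ (2 - 2) = 1 := rfl
    rw [h2]
    omega
  | succ r hr ih =>
    intro S hS s t hst ht hact
    have h1 := rank_step h (2 ^ (r - 2)) r Nat.one_le_two_pow ih S hS (t - s) s t (by omega) hst ht hact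
    have hne : 1 ≤ (Seen L S s s).card := by
      obtain ⟨a, ha⟩ := h.extend (hst.trans ht) (by omega) (hact s le_rfl hst)
      exact Finset.card_pos.2 ⟨a, mem_seen.2 ⟨s, le_rfl, le_rfl, ha⟩⟩
    have h2 : 2 ^ (r + 1 - 2) = 2 * 2 ^ (r - 2) := by
      obtain ⟨r, rfl⟩ := Nat.exists_eq_add_of_le' hr
      have h3 : r + 2 + 1 - 2 = r + 1 := by omega
      rw [h3, Nat.add_sub_cancel, pow_succ, mul_comm]
    rw [h2]
    have h3 := Nat.mul_le_mul_left (2 ^ (r - 2)) hne
    omega

/-- The facets are sets. -/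
theorem tri_nodup (hb : TriFree d k L) (h : IsCLM n d k L) {F : Multiset (Fin n)} (hF : Facet k L F) : F.Nodup := by
  rw [Multiset.nodup_iff_le]
  intro a ha
  obtain ⟨S, rfl⟩ := Multiset.le_iff_exists_add.1 ha
  obtain ⟨i, hi, hFi⟩ := hF
  have hc := h.card i hi _ hFi
  have h1 : a ::ₘ a ::ₘ (0 : Multiset (Fin n)) + S = a ::ₘ a ::ₘ S := by
    simp
  rw [h1] at hc hFi
  have h2 : Facet k L (a ::ₘ a ::ₘ S) := ⟨i, hi, hFi⟩
  exact hb S (by rw [Multiset.card_cons, Multiset.card_cons] at hc; omega) a a a h2 h2 h2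

/-- The length of an interval of layers in which a multiset of size `d - r` is active. -/
theorem tri_length (h : IsCLM n d k L) (hb : TriFree d k L) (r : ℕ) (hr : 2 ≤ r) (S : Multiset (Fin n))
    (hS : Multiset.card S + r = d) (s t : ℕ) (hst : s ≤ t) (ht : t ≤ k) (hact : ∀ l, s ≤ l → l ≤ t → Act L S l) :
    t ≤ s + 2 ^ (r - 2) * (n - 2) := by
  classical
  have hN : ∀ s t, (Seen L S s t).card ≤ n := fun s t => by
    calc (Seen L S s t).card ≤ (Finset.univ : Finset (Fin n)).card := Finset.card_le_card (Finset.subset_univ _)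
      _ = n := by simp
  rcases Nat.eq_or_lt_of_le hr with h2 | h3
  · subst h2
    have h1 := tri_two h hb S hS s t hst ht hact
    have h4 := hN s t
    have h5 : 2 ^ (2 - 2) = 1 := rfl
    rw [h5]
    omega
  · obtain ⟨r, rfl⟩ := Nat.exists_eq_add_of_le' h3
    have h1 := rank_step h (2 ^ r) (r + 2) Nat.one_le_two_pow (by
      have h1 := tri_rank h hb (r + 2) (by omega)
      rwa [Nat.add_sub_cancel] at h1) S (by omega) (t - s) s t (by omega) hst ht hact
    -- three elements in the first layer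
    have hA : 3 ≤ (Seen L S s s).card := by
      obtain ⟨F, hF, hSF⟩ := hact s le_rfl hst
      have hnd := tri_nodup hb h ⟨s, hst.trans ht, hF⟩
      have hnd' : (F - S).Nodup := Multiset.nodup_of_le (Multiset.sub_le_self F S) hnd
      have hcard : Multiset.card (F - S) = r + 2 + 1 := by
        rw [Multiset.card_sub hSF, h.card s (hst.trans ht) F hF]
        omega
      calc 3 ≤ Multiset.card (F - S) := by omega
        _ = (F - S).toFinset.card := by rw [Multiset.toFinset_card_of_nodup hnd']
        _ ≤ (Seen L S s s).card := by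
          refine Finset.card_le_card ?_
          intro u hu
          rw [Multiset.mem_toFinset] at hu
          refine mem_seen.2 ⟨s, le_rfl, le_rfl, F, hF, ?_⟩
          obtain ⟨T, hT⟩ := Multiset.exists_cons_of_mem hu
          have h4 : F = (F - S) + S := (Multiset.sub_add_cancel hSF).symm
          rw [h4, hT, Multiset.cons_add]
          exact Multiset.cons_le_cons u (Multiset.le_add_left _ _)
    have hn : 3 ≤ n := hA.trans (hN s s)
    obtain ⟨n', hn'⟩ := Nat.exists_eq_add_of_le' (show 2 ≤ n by omega)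
    have h4 := Nat.mul_le_mul_left (2 ^ r) hA
    have h5 := Nat.mul_le_mul_left (2 * 2 ^ r) (hN s t)
    have h6 : r + 2 + 1 - 2 = r + 1 := by omega
    have h7 : n - 2 = n' := by omega
    have h8 : 2 ^ (r + 1) * n' = 2 * 2 ^ r * n' := by rw [pow_succ]; ring
    have h9 : 2 * 2 ^ r * n = 2 * 2 ^ r * n' + 4 * 2 ^ r := by rw [hn']; ring
    rw [h6, h7, h8]
    omega

theorem tri_total (h : IsCLM n d k L) (hb : TriFree d k L) (hd : 2 ≤ d) : k ≤ 2 ^ (d - 2) * (n - 2) := by
  have h1 := tri_length h hb d hd 0 (by simp) 0 k (Nat.zero_le _) le_rfl fun l _ hl => by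
    obtain ⟨F, hF⟩ := h.nonempty l hl
    exact ⟨F, hF, Multiset.zero_le F⟩
  omega

/-- Gaps and local bounds. -/
theorem gap_general (h : IsCLM n d k L) {g C : ℕ} (hgap : Gap k L g)
    (hloc : ∀ (X Y : Multiset (Fin n)) (i j : ℕ), i ≤ j → j ≤ k → X ∈ L i → Y ∈ L j → 1 ≤ dist X Y → dist X Y ≤ g →
      j ≤ i + C * dist X Y) :
    ∀ (m : ℕ) (X Y : Multiset (Fin n)) (i j : ℕ), dist X Y ≤ m → i ≤ k → j ≤ k → X ∈ L i → Y ∈ L j →
      j ≤ i + C * dist X Y := by
  intro m
  induction m using Nat.strong_induction_on with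
  | _ m IH =>
  intro X Y i j hm hi hj hX hY
  have hcX := h.card i hi X hX
  have hcY := h.card j hj Y hY
  rcases Nat.eq_zero_or_pos (dist X Y) with h0 | hpos
  · have h1 : X = Y := eq_of_dist (hcX.trans hcY.symm) h0
    have h2 : i = j := by
      by_contra hne
      refine Finset.disjoint_left.1 (h.disj i j hi hj hne) hX ?_
      rw [h1]
      exact hY
    rw [h2]
    exact Nat.le_add_right _ _
  rcases Nat.lt_or_ge g (dist X Y) with hlt | hle
  · obtain ⟨Z, ⟨l, hl, hZ⟩, hZX, hZY, hsum⟩ := hgap X Y ⟨i, hi, hX⟩ ⟨j, hj, hY⟩ hlt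
    have hcZ := h.card l hl Z hZ
    have h1 : dist X Z ≠ 0 := fun h0 => hZX (eq_of_dist (hcX.trans hcZ.symm) h0).symm
    have h2 : dist Z Y ≠ 0 := fun h0 => hZY (eq_of_dist (hcZ.trans hcY.symm) h0)
    have h3 := IH (dist X Z) (by omega) X Z i l le_rfl hi hl hX hZ
    have h4 := IH (dist Z Y) (by omega) Z Y l j le_rfl hl hj hZ hY
    have h5 : C * dist X Y = C * dist X Z + C * dist Z Y := by
      rw [← hsum]
      ring
    omega
  · rcases Nat.lt_or_ge j i with hji | hij
    · omega
    · exact hloc X Y i j hij hj hX hY hpos hle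

theorem tri_gap (h : IsCLM n d k L) (hb : TriFree d k L) (hgap : Gap k L 4) : k ≤ d * (n - 1) := by
  obtain ⟨X, hX⟩ := h.nonempty 0 (Nat.zero_le _)
  obtain ⟨Y, hY⟩ := h.nonempty k le_rfl
  have h1 := gap_general h (C := n - 1) hgap ?_ (dist X Y) X Y 0 k le_rfl (Nat.zero_le _) le_rfl hX hY
  · have h2 : dist X Y ≤ d := (dist_le_card X Y).trans (h.card 0 (Nat.zero_le _) X hX).le
    have h3 := Nat.mul_le_mul_left (n - 1) h2
    rw [mul_comm d]
    omega
  · intro X Y i j hij hj hX hY hD hD4
    rcases Nat.lt_or_ge 1 (dist X Y) with h2 | h2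
    · have h3 : Multiset.card (X ∩ Y) + dist X Y = d := by
        rw [← h.card i (hij.trans hj) X hX]
        unfold dist
        rw [← Multiset.card_add]
        congr 1
        ext a
        simp only [Multiset.count_add, Multiset.count_inter, Multiset.count_sub]
        omega
      have h4 := tri_length h hb (dist X Y) h2 (X ∩ Y) h3 i j hij hj fun l h1 h2 =>
        h.act h1 h2 hj ⟨X, hX, Multiset.inter_le_left⟩ ⟨Y, hY, Multiset.inter_le_right⟩
      have h5 : 2 ^ (dist X Y - 2) ≤ dist X Y := by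
        generalize dist X Y = D at *
        interval_cases D <;> norm_num
      have h6 : 2 ^ (dist X Y - 2) * (n - 2) ≤ dist X Y * (n - 1) := Nat.mul_le_mul h5 (by omega)
      rw [mul_comm (n - 1)]
      omega
    · have h3 : dist X Y = 1 := by omega
      have h4 := layer_dist h hij hj hX hY hD
      rw [h3] at h4 ⊢
      simpa using h4

/-- If the rank is at most four, then the gaps are at most four. -/
theorem gap_four (h : IsCLM n d k L) (hd : d ≤ 4) : Gap k L 4 := by
  rintro X Y ⟨i, hi, hX⟩ _ hD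
  have h1 := dist_le_card X Y
  rw [h.card i hi X hX] at h1
  omega

end Pool.Agent.Lib.MP_51ebd4_co
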