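import Pool.Agent.Lib.MP_51ebd4_co.Tri

/-!
# Counting the uses of the elements, for graphs without large cliques

`S` is a multiset, `P_x` the set of the elements which are active with `x` and `S` in an interval of
layers. A link of `x` over an interval costs `c |P_x|`. We choose the elements `x` in such a way
that on average each element is used at most `ρ` times.
-/

set_option autoImplicit false

namespace Pool.Agent.Lib.MP_51ebd4_co

variable {n d k : ℕ} {L : ℕ → Finset (Multiset (Fin n))}

/-- `a` and `b` are active together with `S` in some layer. -/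
def Adj (k : ℕ) (L : ℕ → Finset (Multiset (Fin n))) (S : Multiset (Fin n)) (a b : Fin n) : Prop :=
  ∃ l, l ≤ k ∧ Act L (a ::ₘ b ::ₘ S) l

/-- There is no clique of `j + 2` elements in `U`. -/
def CF (r : Fin n → Fin n → Prop) : ℕ → Finset (Fin n) → Prop
  | 0, U => ∀ a ∈ U, ∀ b ∈ U, ¬ r a b
  | j + 1, U => ∀ x ∈ U, ∀ V, V ⊆ U → (∀ b ∈ V, r b x) → CF r j V

theorem cf_of_clique {r : Fin n → Fin n → Prop} (hsymm : ∀ a b, r a b → r b a) (hirr : ∀ a, ¬ r a a) : ∀ (j : ℕ)
    (U : Finset (Fin n)), ¬ CF r j U → ∃ T, T ⊆ U ∧ T.card = j + 2 ∧ ∀ a ∈ T, ∀ b ∈ T, a ≠ b → r a b := by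
  classical
  intro j
  induction j with
  | zero =>
    intro U hU
    simp only [CF, not_forall, not_not] at hU
    obtain ⟨a, ha, b, hb, hab⟩ := hU
    have hne : a ≠ b := by
      rintro rfl
      exact hirr a hab
    refine ⟨{a, b}, ?_, ?_, ?_⟩
    · intro c hc
      rcases Finset.mem_insert.1 hc with rfl | hc'
      · exact ha
      · rw [Finset.mem_singleton.1 hc']
        exact hb
    · rw [Finset.card_pair hne]
    · intro c hc e he hce
      rcases Finset.mem_insert.1 hc with hc' | hc' <;> rcases Finset.mem_insert.1 he with he' | he'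
      · exact absurd (hc'.trans he'.symm) hce
      · rw [hc', Finset.mem_singleton.1 he']
        exact hab
      · rw [Finset.mem_singleton.1 hc', he']
        exact hsymm _ _ hab
      · exact absurd ((Finset.mem_singleton.1 hc').trans (Finset.mem_singleton.1 he').symm) hce
  | succ j ih =>
    intro U hU
    simp only [CF, not_forall] at hU
    obtain ⟨x, hx, V, hVU, hV, hcf⟩ := hU
    obtain ⟨T, hTV, hT, hcl⟩ := ih V hcf
    have hxT : x ∉ T := fun h => hirr x (hV x (hTV h))
    refine ⟨insert x T, ?_, ?_, ?_⟩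
    · intro c hc
      rcases Finset.mem_insert.1 hc with hc' | hc'
      · rw [hc']
        exact hx
      · exact hVU (hTV hc')
    · rw [Finset.card_insert_of_notMem hxT, hT]
    · intro c hc e he hce
      rcases Finset.mem_insert.1 hc with hc' | hc' <;> rcases Finset.mem_insert.1 he with he' | he'
      · exact absurd (hc'.trans he'.symm) hce
      · rw [hc']
        exact hsymm _ _ (hV e (hTV he'))
      · rw [he']
        exact hV c (hTV hc')
      · exact hcl c hc' e he' hce

theorem use_bound (h : IsCLM n d k L) (S : Multiset (Fin n)) (hS : Multiset.card S < d) (c ρ : ℝ) (φ : ℕ → ℝ) (J : ℕ)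
    (hc : 0 ≤ c) (hρ : 1 ≤ ρ) (hφ0 : φ 0 = 0) (hφρ : ∀ j, j ≤ J → φ j ≤ ρ) (hφ : ∀ j, j < J → ρ ≤ φ (j + 1) * (1 + ρ - φ j))
    (hJ : φ J ≤ ρ - 1)
    (cost : ∀ x s e, s ≤ e → e ≤ k → (∀ l, s ≤ l → l ≤ e → Act L (x ::ₘ S) l) →
      ((e : ℝ) - s + 1) ≤ c * (Seen L (x ::ₘ S) s e).card)
    (loop : ∀ y, ¬ Adj k L S y y)
    (nbr : ∀ x (V : Finset (Fin n)), (∀ b ∈ V, Adj k L S b x) → CF (Adj k L S) J V) :
    ∀ (m s t : ℕ), t ≤ s + m → s ≤ t → t ≤ k → (∀ l, s ≤ l → l ≤ t → Act L S l) → ∀ j, j ≤ J → ∀ U : Finset (Fin n),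
      U.Nonempty → (∀ a ∈ U, Act L (a ::ₘ S) s) → CF (Adj k L S) j U →
      ((t : ℝ) - s + 1) ≤ c * (ρ * ((Seen L S s t).card - U.card) + φ j * U.card) := by
  classical
  intro m
  induction m using Nat.strong_induction_on with
  | _ m IH =>
  intro s t hm hst ht hact j
  induction j with
  | zero => ?_
  | succ j ihj => ?_
  all_goals
    intro hj U hne hUact hU
    have hR : ∀ a : Fin n, ∃ e, a ∈ U → s ≤ e ∧ e ≤ t ∧ Act L (a ::ₘ S) e ∧
        ∀ l, e < l → l ≤ t → ¬ Act L (a ::ₘ S) l := by
      intro a
      by_cases ha : a ∈ U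
      · have ha1 := hUact a ha
        let T := (Finset.Icc s t).filter fun e => Act L (a ::ₘ S) e
        have hT : T.Nonempty := ⟨s, by simp [T, ha1, hst]⟩
        refine ⟨T.max' hT, fun _ => ?_⟩
        have h1 := Finset.mem_filter.1 (T.max'_mem hT)
        rw [Finset.mem_Icc] at h1
        refine ⟨h1.1.1, h1.1.2, h1.2, ?_⟩
        intro l' hl' hl't hact'
        have h2 : l' ∈ T := by
          simp only [T, Finset.mem_filter, Finset.mem_Icc]
          exact ⟨⟨by omega, hl't⟩, hact'⟩
        have h3 := T.le_max' l' h2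
        omega
      · exact ⟨0, fun h' => absurd h' ha⟩
    choose R hR using hR
    obtain ⟨x, hx, hmax⟩ := Finset.exists_max_image U R hne
    obtain ⟨he1, he2, he3, he4⟩ := hR x hx
    have hxs := hUact x hx
    set e := R x with he
    have hout : ∀ a ∈ U, ∀ l, e < l → l ≤ t → ¬ Act L (a ::ₘ S) l := by
      intro a ha l hl hlt
      exact (hR a ha).2.2.2 l (lt_of_le_of_lt (hmax a ha) hl) hlt
    have hcost := cost x s e he1 (he2.trans ht) (fun l hl1 hl2 => h.act hl1 hl2 (he2.trans ht) hxs he3)
    set P := Seen L (x ::ₘ S) s e with hPdef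
    have hPN : ∀ b ∈ P, b ∈ Seen L S s e := by
      intro b hb
      obtain ⟨l, hl1, hl2, hl3⟩ := mem_seen.1 hb
      refine mem_seen.2 ⟨l, hl1, hl2, hl3.mono ?_⟩
      exact Multiset.cons_le_cons b (Multiset.le_cons_self S x)
    have hPadj : ∀ b ∈ P, Adj k L S b x := by
      intro b hb
      obtain ⟨l, hl1, hl2, hl3⟩ := mem_seen.1 hb
      exact ⟨l, by omega, hl3⟩
    have hsub : ∀ {s' t' : ℕ}, s ≤ s' → t' ≤ t → Seen L S s' t' ⊆ Seen L S s t := by
      intro s' t' h1 h2 b hb
      obtain ⟨l, hl1, hl2, hl3⟩ := mem_seen.1 hb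
      exact mem_seen.2 ⟨l, by omega, by omega, hl3⟩
    have hUsub : U ⊆ Seen L S s t := by
      intro a ha
      exact mem_seen.2 ⟨s, le_rfl, hst, hUact a ha⟩
    have hNU : ((Seen L S s t \ U).card : ℝ) = (Seen L S s t).card - U.card := by
      rw [Finset.cast_card_sdiff hUsub]
    have hPsplit : (P.card : ℝ) = (P ∩ U).card + (P \ U).card := by
      rw [← Finset.card_inter_add_card_sdiff P U]
      push_cast
      ring
    -- first option
    have option1 : ∀ θ : ℝ, ((P ∩ U).card : ℝ) ≤ θ * U.card →
        ((t : ℝ) - s + 1) ≤ c * (ρ * ((Seen L S s t).card - U.card) + θ * U.card) := by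
      intro θ hθ
      by_cases het : e = t
      · have h1 : ((P \ U).card : ℝ) ≤ (Seen L S s t \ U).card := by
          exact_mod_cast Finset.card_le_card (Finset.sdiff_subset_sdiff (fun b hb => hsub le_rfl he2 (hPN b hb)) le_rfl)
        rw [hNU] at h1
        have h2 : (0 : ℝ) ≤ (P \ U).card := Nat.cast_nonneg _
        rw [← het]
        refine hcost.trans (mul_le_mul_of_nonneg_left ?_ hc)
        rw [hPsplit, het]
        nlinarith
      · have hlt : e < t := lt_of_le_of_ne he2 het
        set N' := Seen L S (e + 1) t with hN'def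
        set Q' := (P \ U) ∩ N' with hQ'def
        have hQact : ∀ b ∈ Q', Act L (b ::ₘ S) (e + 1) := by
          intro b hb'
          obtain ⟨hb1, hb2⟩ := Finset.mem_inter.1 hb'
          obtain ⟨l, hl1, hl2, hl3⟩ := mem_seen.1 (hPN b (Finset.mem_sdiff.1 hb1).1)
          obtain ⟨l', hl1', hl2', hl3'⟩ := mem_seen.1 hb2
          exact h.act (i := l) (j := l') (by omega) (by omega) (by omega) hl3 hl3'
        have hrec : ((t : ℝ) - e) ≤ c * (ρ * N'.card - Q'.card) := by
          rcases Q'.eq_empty_or_nonempty with h0 | h0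
          · obtain ⟨y, hy⟩ := h.extend (S := S) (l := e + 1) (by omega) hS (hact (e + 1) (by omega) (by omega))
            have h1 := IH (t - (e + 1)) (by omega) (e + 1) t (by omega) (by omega) ht
              (fun l hl1 hl2 => hact l (by omega) hl2) 0 (Nat.zero_le _) {y} (Finset.singleton_nonempty y)
              (fun a ha => by rw [Finset.mem_singleton.1 ha]; exact hy)
              (fun a ha b hb' => by
                rw [Finset.mem_singleton.1 ha, Finset.mem_singleton.1 hb']
                exact loop y)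
            rw [← hN'def, Finset.card_singleton, hφ0] at h1
            rw [h0, Finset.card_empty]
            push_cast at h1 ⊢
            have h2 : c * (ρ * ((N'.card : ℝ) - 1) + 0 * 1) ≤ c * (ρ * N'.card - 0) :=
              mul_le_mul_of_nonneg_left (by nlinarith) hc
            linarith
          · have h1 := IH (t - (e + 1)) (by omega) (e + 1) t (by omega) (by omega) ht
              (fun l hl1 hl2 => hact l (by omega) hl2) J le_rfl Q' h0 hQact
              (nbr x Q' fun b hb' => hPadj b (Finset.mem_sdiff.1 (Finset.mem_inter.1 hb').1).1)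
            rw [← hN'def] at h1
            push_cast at h1
            have h3 : (0 : ℝ) ≤ Q'.card := Nat.cast_nonneg _
            have h2 : c * (ρ * ((N'.card : ℝ) - Q'.card) + φ J * Q'.card) ≤ c * (ρ * N'.card - Q'.card) :=
              mul_le_mul_of_nonneg_left (by nlinarith) hc
            linarith
        have hN' : N' ⊆ Seen L S s t := hsub (by omega) le_rfl
        have hNdis : Disjoint N' U := by
          rw [Finset.disjoint_left]
          intro b hb1 hb2
          obtain ⟨l, hl1, hl2, hl3⟩ := mem_seen.1 hb1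
          exact hout b hb2 l (by omega) hl2 hl3
        have h1 : ((P \ U).card : ℝ) = Q'.card + ((P \ U) \ N').card := by
          rw [← Finset.card_inter_add_card_sdiff (P \ U) N']
          push_cast
          ring
        have h2 : ((((P \ U) \ N') ∪ N').card : ℝ) ≤ (Seen L S s t \ U).card := by
          refine Nat.cast_le.2 (Finset.card_le_card (Finset.union_subset ?_ ?_))
          · intro b hb'
            obtain ⟨hb1, -⟩ := Finset.mem_sdiff.1 hb'
            obtain ⟨hb2, hb3⟩ := Finset.mem_sdiff.1 hb1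
            exact Finset.mem_sdiff.2 ⟨hsub le_rfl he2 (hPN b hb2), hb3⟩
          · intro b hb'
            exact Finset.mem_sdiff.2 ⟨hN' hb', fun hbU => Finset.disjoint_left.1 hNdis hb' hbU⟩
        rw [Finset.card_union_of_disjoint Finset.sdiff_disjoint, hNU] at h2
        push_cast at h2
        have h3 : (0 : ℝ) ≤ ((P \ U) \ N').card := Nat.cast_nonneg _
        have h4 : ((t : ℝ) - s + 1) ≤ c * P.card + c * (ρ * N'.card - Q'.card) := by linarith
        refine h4.trans ?_
        rw [← mul_add]
        refine mul_le_mul_of_nonneg_left ?_ hc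
        rw [hPsplit, h1]
        nlinarith
  · -- `U` is independent
    refine option1 (φ 0) ?_
    have h1 : P ∩ U = ∅ := by
      rw [Finset.eq_empty_iff_forall_notMem]
      intro b hb
      obtain ⟨hb1, hb2⟩ := Finset.mem_inter.1 hb
      exact hU b hb2 x hx (hPadj b hb1)
    rw [h1, hφ0, Finset.card_empty]
    simp
  · by_cases hcase : ((P ∩ U).card : ℝ) ≤ φ (j + 1) * U.card
    · exact option1 (φ (j + 1)) hcase
    · push Not at hcase
      have h1 := hφρ j (by omega)
      have h2 := hφ j (by omega)
      have h3 : (0 : ℝ) < φ (j + 1) := by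
        by_contra h4
        push Not at h4
        nlinarith
      have h4 : (0 : ℝ) ≤ U.card := Nat.cast_nonneg _
      have h5 : (P ∩ U).Nonempty := by
        rw [Finset.nonempty_iff_ne_empty]
        intro h6
        rw [h6, Finset.card_empty] at hcase
        push_cast at hcase
        nlinarith
      have h6 := ihj (by omega) (P ∩ U) h5 (fun a ha => hUact a (Finset.mem_inter.1 ha).2)
        (hU x hx (P ∩ U) Finset.inter_subset_right fun b hb => hPadj b (Finset.mem_inter.1 hb).1)
      refine h6.trans (mul_le_mul_of_nonneg_left ?_ hc)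
      have h7 : φ (j + 1) * U.card * (ρ - φ j) ≤ (P ∩ U).card * (ρ - φ j) :=
        mul_le_mul_of_nonneg_right hcase.le (by linarith)
      have h8 : ρ * U.card ≤ φ (j + 1) * (1 + ρ - φ j) * U.card := mul_le_mul_of_nonneg_right h2 h4
      nlinarith

end Pool.Agent.Lib.MP_51ebd4_co
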